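import Pool.Agent.Lib.MP_1ef7cf_nt.Core2
import Pool.Agent.Lib.MP_1ef7cf_nt_c.Loc
import Pool.Agent.Lib.MP_1ef7cf_nt_c.Red

/-!
# Norms from an extension unramified at `ℓ`
-/

set_option linter.unusedSectionVars false

open NumberField IsDedekindDomain nonZeroDivisors IntermediateField

namespace Pool.Agent.STe

open Pool.Agent.ST Pool.Agent.STb
open Pool.Agent.STc (IsInt rd pg mem_pg)

namespace INRB

section abs

open scoped Pointwise

variable {K T : Type*} [Field K] [NumberField K] [Field T] [NumberField T] [Algebra K T]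
  [IsGalois K T]

/-- local norms -/
lemma exists_w (P : PrI T) [Algebra.IsUnramifiedAt (𝓞 K) P.asIdeal] (a : 𝓞 K) :
    ∃ w : 𝓞 T, ∀ y : 𝓞 T, y - w ∈ P.asIdeal →
      (∀ g : T ≃ₐ[K] T, pg g P ≠ P → y - 1 ∈ (pg g P).asIdeal) →
      (∏ τ : T ≃ₐ[K] T, τ • y) - algebraMap (𝓞 K) (𝓞 T) a ∈ P.asIdeal := by
  classical
  set p : Ideal (𝓞 K) := (und K P).asIdeal with hp
  have hlo : P.asIdeal.LiesOver p := ⟨rfl⟩
  have : P.asIdeal.IsMaximal := P.isMaximal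
  have : p.IsMaximal := (und K P).isMaximal
  have : Finite (𝓞 T ⧸ P.asIdeal) := Ideal.finiteQuotientOfFreeOfNeBot P.asIdeal P.ne_bot
  let : Field (𝓞 T ⧸ P.asIdeal) := Ideal.Quotient.field P.asIdeal
  let : Field (𝓞 K ⧸ p) := Ideal.Quotient.field p
  obtain ⟨w', hw'⟩ := FiniteField.norm_surjective (𝓞 K ⧸ p) (𝓞 T ⧸ P.asIdeal)
    (Ideal.Quotient.mk p a)
  obtain ⟨w, rfl⟩ := Ideal.Quotient.mk_surjective w'
  refine ⟨w, fun y hy hy' => ?_⟩
  set S := MulAction.stabilizer (T ≃ₐ[K] T) P.asIdeal with hS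
  have hbij : Function.Bijective (Ideal.Quotient.stabilizerHom P.asIdeal p (T ≃ₐ[K] T)) := by
    refine ⟨?_, Ideal.Quotient.stabilizerHom_surjective _ _ _⟩
    rw [injective_iff_map_eq_one]
    intro g hg
    obtain ⟨φ, hφ⟩ := exists_isFrob (K := K) P
    have h1 : ∀ x : 𝓞 T, (g : T ≃ₐ[K] T) • x - x ∈ P.asIdeal := by
      intro x
      have h2 := congrArg (fun f => f (Ideal.Quotient.mk P.asIdeal x)) hg
      exact Ideal.Quotient.eq.1 h2
    have h3 : IsFrob K P ((g : T ≃ₐ[K] T) * φ) := by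
      intro x
      have h4 := h1 (φ • x)
      have h5 := hφ x
      rw [mul_smul]
      have h6 := P.asIdeal.add_mem h4 h5
      rwa [sub_add_sub_cancel] at h6
    have h7 := isFrob_unique h3 hφ
    have h8 : (g : T ≃ₐ[K] T) = 1 := mul_eq_right.1 h7
    exact Subtype.ext h8
  rw [← Ideal.Quotient.eq, map_prod]
  have hout : ∀ τ : T ≃ₐ[K] T, τ ∉ S → Ideal.Quotient.mk P.asIdeal (τ • y) = 1 := by
    intro τ hτ
    have h1 : pg τ⁻¹ P ≠ P := by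
      intro h2
      apply hτ
      rw [hS, MulAction.mem_stabilizer_iff]
      have h3 : τ⁻¹ • P.asIdeal = P.asIdeal := congrArg (fun Q : PrI T => Q.asIdeal) h2
      conv_lhs => rw [← h3]
      rw [smul_inv_smul]
    have h2 := hy' τ⁻¹ h1
    rw [mem_pg, inv_inv, smul_sub, smul_one] at h2
    exact Ideal.Quotient.eq.2 h2
  have hin : ∀ τ : S, Ideal.Quotient.mk P.asIdeal ((τ : T ≃ₐ[K] T) • y) =
      Ideal.Quotient.stabilizerHom P.asIdeal p (T ≃ₐ[K] T) τ (Ideal.Quotient.mk P.asIdeal w) := by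
    intro τ
    rw [← Ideal.Quotient.eq.2 hy]
    rfl
  have hprod : ∏ τ : T ≃ₐ[K] T, Ideal.Quotient.mk P.asIdeal (τ • y) =
      ∏ τ : S, Ideal.Quotient.mk P.asIdeal ((τ : T ≃ₐ[K] T) • y) := by
    rw [← Finset.prod_subtype (Finset.univ.filter (fun τ : T ≃ₐ[K] T => τ ∈ S))
      (p := fun τ => τ ∈ S) (by simp) (fun τ => Ideal.Quotient.mk P.asIdeal (τ • y))]
    symm
    apply Finset.prod_subset (Finset.filter_subset _ _)
    intro τ _ hτ
    apply hout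
    simpa using hτ
  rw [hprod, Finset.prod_congr rfl (fun τ _ => hin τ)]
  have h9 : ∏ τ : S, (Ideal.Quotient.stabilizerHom P.asIdeal p (T ≃ₐ[K] T) τ)
      (Ideal.Quotient.mk P.asIdeal w) =
      ∏ σ : ((𝓞 T ⧸ P.asIdeal) ≃ₐ[𝓞 K ⧸ p] (𝓞 T ⧸ P.asIdeal)), σ
        (Ideal.Quotient.mk P.asIdeal w) :=
    hbij.prod_comp (fun σ : ((𝓞 T ⧸ P.asIdeal) ≃ₐ[𝓞 K ⧸ p] (𝓞 T ⧸ P.asIdeal)) => σ
        (Ideal.Quotient.mk P.asIdeal w))
  rw [h9, ← Algebra.norm_eq_prod_automorphisms, hw']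
  rfl

/-- Chinese remainder theorem -/
lemma exists_crt (P : PrI T) (w : 𝓞 T) {c : 𝓞 K} (hc : c ∉ (und K P).asIdeal) :
    ∃ y : 𝓞 T, y - w ∈ P.asIdeal ∧
      (∀ g : T ≃ₐ[K] T, pg g P ≠ P → y - 1 ∈ (pg g P).asIdeal) ∧
      y - 1 ∈ Ideal.span {algebraMap (𝓞 K) (𝓞 T) c} := by
  classical
  set s : Finset (T ≃ₐ[K] T) := Finset.univ.filter (fun g => pg g P ≠ P) with hs
  have hJ : ¬ Ideal.span {algebraMap (𝓞 K) (𝓞 T) c} * ∏ g ∈ s, (pg g P).asIdeal ≤ P.asIdeal := by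
    rw [P.isPrime.mul_le, P.isPrime.prod_le]
    rintro (h | ⟨g, hg, h⟩)
    · apply hc
      exact h (Ideal.mem_span_singleton_self _)
    · rw [hs, Finset.mem_filter] at hg
      apply hg.2
      apply HeightOneSpectrum.ext
      exact (pg g P).isMaximal.eq_of_le P.isPrime.ne_top h
  obtain ⟨j, hj, hjP⟩ := SetLike.not_le_iff_exists.1 hJ
  obtain ⟨z, i, hi, hz⟩ := P.isMaximal.exists_inv hjP
  refine ⟨1 + (w - 1) * (z * j), ?_, ?_, ?_⟩
  · have h1 : 1 + (w - 1) * (z * j) - w = -((w - 1) * i) := by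
      linear_combination (w - 1) * hz
    rw [h1]
    exact P.asIdeal.neg_mem (P.asIdeal.mul_mem_left _ hi)
  · intro g hg
    rw [add_sub_cancel_left]
    apply Ideal.mul_mem_left
    apply Ideal.mul_mem_left
    have h2 : j ∈ ∏ g ∈ s, (pg g P).asIdeal :=
      (Ideal.mul_le_right (I := Ideal.span {algebraMap (𝓞 K) (𝓞 T) c})
        (J := ∏ g ∈ s, (pg g P).asIdeal)) hj
    have hgs : g ∈ s := by rw [hs, Finset.mem_filter]; exact ⟨Finset.mem_univ _, hg⟩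
    exact Ideal.le_of_dvd (Finset.dvd_prod_of_mem (fun g => (pg g P).asIdeal) hgs) h2
  · rw [add_sub_cancel_left]
    apply Ideal.mul_mem_left
    apply Ideal.mul_mem_left
    exact (Ideal.mul_le_left (I := Ideal.span {algebraMap (𝓞 K) (𝓞 T) c})
        (J := ∏ g ∈ s, (pg g P).asIdeal)) hj

/-- congruence of the norm modulo a principal ideal -/
lemma norm_sub_one {c x : 𝓞 K} (hc : c ≠ 0) {y : 𝓞 T}
    (hy : y - 1 ∈ Ideal.span {algebraMap (𝓞 K) (𝓞 T) c})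
    (hx : algebraMap (𝓞 K) (𝓞 T) x = ∏ τ : T ≃ₐ[K] T, τ • y) : c ∣ x - 1 := by
  have h1 : ∀ τ : T ≃ₐ[K] T, τ • y - 1 ∈ Ideal.span {algebraMap (𝓞 K) (𝓞 T) c} := by
    intro τ
    rw [Ideal.mem_span_singleton] at hy ⊢
    obtain ⟨z, hz⟩ := hy
    refine ⟨τ • z, ?_⟩
    have h2 := congrArg (fun u => τ • u) hz
    simp only [smul_sub, smul_one, smul_mul', smul_algebraMap] at h2
    exact h2
  have h3 : (∏ τ : T ≃ₐ[K] T, τ • y) - 1 ∈ Ideal.span {algebraMap (𝓞 K) (𝓞 T) c} := by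
    rw [← Ideal.Quotient.eq, map_prod, map_one]
    apply Finset.prod_eq_one
    intro τ _
    have := Ideal.Quotient.eq.2 (h1 τ)
    rwa [map_one] at this
  rw [← hx, Ideal.mem_span_singleton] at h3
  obtain ⟨z, hz⟩ := h3
  have hcK : (c : K) ≠ 0 := by
    intro h
    exact hc (RingOfIntegers.coe_injective h)
  have hzT : algebraMap K T (((x : K) - 1) / c) = algebraMap (𝓞 T) T z := by
    have h4 := congrArg (algebraMap (𝓞 T) T) hz
    have h6 : algebraMap (𝓞 T) T (algebraMap (𝓞 K) (𝓞 T) x) = algebraMap K T (x : K) := rfl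
    have h7 : algebraMap (𝓞 T) T (algebraMap (𝓞 K) (𝓞 T) c) = algebraMap K T (c : K) := rfl
    rw [map_sub, map_one, map_mul, h6, h7] at h4
    have h8 : algebraMap K T (c : K) ≠ 0 := by
      rw [Ne, map_eq_zero]
      exact hcK
    rw [map_div₀, map_sub, map_one, div_eq_iff h8, h4, mul_comm]
  have hint : IsIntegral ℤ (((x : K) - 1) / c) := by
    rw [← isIntegral_algebraMap_iff (algebraMap K T).injective, hzT]
    exact RingOfIntegers.isIntegral_coe z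
  obtain ⟨b, hb⟩ : ∃ b : 𝓞 K, algebraMap (𝓞 K) K b = ((x : K) - 1) / c :=
    ⟨⟨_, hint⟩, rfl⟩
  refine ⟨b, ?_⟩
  apply RingOfIntegers.coe_injective
  rw [map_sub, map_one, map_mul, hb, mul_div_cancel₀ _ hcK]

/-- the norm and its conjugates -/
lemma exists_norm (y : 𝓞 T) : ∃ x : 𝓞 K,
    algebraMap K T (x : K) = ∏ τ : T ≃ₐ[K] T, τ (algebraMap (𝓞 T) T y) ∧
    algebraMap (𝓞 K) (𝓞 T) x = ∏ τ : T ≃ₐ[K] T, τ • y := by
  have h1 : algebraMap K T ((RingOfIntegers.norm K y : 𝓞 K) : K) =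
      ∏ τ : T ≃ₐ[K] T, τ (algebraMap (𝓞 T) T y) := by
    rw [RingOfIntegers.coe_norm, ← Algebra.norm_eq_prod_automorphisms]
  refine ⟨RingOfIntegers.norm K y, h1, ?_⟩
  apply RingOfIntegers.coe_injective
  rw [map_prod]
  exact h1

end abs

open Filter Topology in
lemma pos_aux {ι : Type*} [Fintype ι] (z : ι → ℂ) {N : ℕ} (hN : 0 < N) (r : ℕ → ℝ)
    (hr : ∀ t : ℕ, (r t : ℂ) = ∏ i, (z i + (t : ℂ) * N)) : ∃ t, 0 < r t := by
  have hN' : (N : ℂ) ≠ 0 := by exact_mod_cast hN.ne'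
  have h0 : Tendsto (fun t : ℕ => (t : ℂ)⁻¹) atTop (𝓝 0) := tendsto_inv_atTop_nhds_zero_nat
  have h1 : Tendsto (fun t : ℕ => ∏ i, (z i / N * (t : ℂ)⁻¹ + 1)) atTop
      (𝓝 (∏ _i : ι, (1 : ℂ))) := by
    apply tendsto_finsetProd
    intro i _
    have h2 := (h0.const_mul (z i / N)).add_const 1
    simpa using h2
  rw [Finset.prod_const_one] at h1
  have h3 := (Complex.continuous_re.tendsto 1).comp h1
  have h4 : ∀ᶠ t : ℕ in atTop, (1 / 2 : ℝ) < (∏ i, (z i / N * (t : ℂ)⁻¹ + 1)).re := by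
    apply h3.eventually (lt_mem_nhds _)
    norm_num
  obtain ⟨t, ht, ht0⟩ := (h4.and (eventually_gt_atTop 0)).exists
  refine ⟨t, ?_⟩
  have ht' : (t : ℂ) ≠ 0 := by exact_mod_cast ht0.ne'
  have h5 : (r t : ℂ) = (((t : ℝ) * N) ^ Fintype.card ι : ℝ) *
      ∏ i, (z i / N * (t : ℂ)⁻¹ + 1) := by
    rw [hr]
    push_cast
    rw [← Finset.card_univ, ← Finset.prod_const, ← Finset.prod_mul_distrib]
    apply Finset.prod_congr rfl
    intro i _
    field_simp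
  have h6 : r t = ((t : ℝ) * N) ^ Fintype.card ι * (∏ i, (z i / N * (t : ℂ)⁻¹ + 1)).re := by
    have h7 := congrArg Complex.re h5
    rwa [Complex.ofReal_re, Complex.re_ofReal_mul] at h7
  rw [h6]
  have h8 : (0 : ℝ) < t := by exact_mod_cast ht0
  have h9 : (0 : ℝ) < N := by exact_mod_cast hN
  have h10 : (0 : ℝ) < (∏ i, (z i / N * (t : ℂ)⁻¹ + 1)).re := by linarith
  positivity

/-- the statement for abstract number fields -/
lemma main {K T : Type*} [Field K] [NumberField K] [Field T] [NumberField T] [Algebra K T]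
    [IsGalois K T] {σ₂ : K →+* ℝ} {g : T →+* ℂ} (hg : ∀ a : K, g (algebraMap K T a) = (σ₂ a : ℂ))
    {m : Ideal (𝓞 K)} {ℓ : PrI K} (hℓ : ¬ ℓ.asIdeal ∣ m)
    (hun : ∀ P : PrI T, und K P = ℓ → Algebra.IsUnramifiedAt (𝓞 K) P.asIdeal)
    {a : 𝓞 K} (ha : a ∉ ℓ.asIdeal) : ∃ (y : 𝓞 T) (x : 𝓞 K), y ≠ 0 ∧
      algebraMap K T (x : K) = ∏ τ : T ≃ₐ[K] T, τ (algebraMap (𝓞 T) T y) ∧
      x - a ∈ ℓ.asIdeal ∧ x - 1 ∈ m ∧ 0 < σ₂ (x : K) := by
  obtain ⟨P, hP⟩ := exists_ovr (K := K) (L := T) ℓ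
  have := hun P hP
  obtain ⟨w, hw⟩ := exists_w (K := K) P a
  obtain ⟨c, hcm, hcℓ⟩ : ∃ c ∈ m, c ∉ ℓ.asIdeal := by
    rw [Ideal.dvd_iff_le] at hℓ
    exact SetLike.not_le_iff_exists.1 hℓ
  have hc0 : c ≠ 0 := by
    rintro rfl
    exact hcℓ ℓ.asIdeal.zero_mem
  obtain ⟨y₀, hy1, hy2, hy3⟩ := exists_crt (K := K) P w (c := c) (by rwa [hP])
  have hI0 : Ideal.span {c} * ℓ.asIdeal ≠ ⊥ := by
    rw [Ne, Ideal.mul_eq_bot, not_or]
    exact ⟨by simpa using hc0, ℓ.ne_bot⟩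
  obtain ⟨N, hN⟩ : ∃ N : ℕ, N = Ideal.absNorm (Ideal.span {c} * ℓ.asIdeal) := ⟨_, rfl⟩
  have hN0 : 0 < N := Nat.pos_of_ne_zero (by rw [hN, Ne, Ideal.absNorm_eq_zero_iff]; exact hI0)
  have hNI : (N : 𝓞 K) ∈ Ideal.span {c} * ℓ.asIdeal := by rw [hN]; exact Ideal.absNorm_mem _
  have hNℓ : (N : 𝓞 K) ∈ ℓ.asIdeal := (Ideal.mul_le_right (I := Ideal.span {c}) (J := ℓ.asIdeal)) hNI
  have hNc : (N : 𝓞 K) ∈ Ideal.span {c} := (Ideal.mul_le_left (I := Ideal.span {c}) (J := ℓ.asIdeal)) hNI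
  choose X hXY hXY' using fun t : ℕ => exists_norm (K := K) (y₀ + (t : 𝓞 T) * (N : 𝓞 T))
  obtain ⟨t, ht⟩ := pos_aux (fun τ : T ≃ₐ[K] T => g (τ (algebraMap (𝓞 T) T y₀))) hN0
    (fun t => σ₂ (X t : K)) (by
      intro t
      rw [← hg, hXY, map_prod]
      apply Finset.prod_congr rfl
      intro τ _
      rw [map_add, map_mul, map_natCast, map_natCast, map_add, map_mul, map_natCast,
        map_natCast, map_add, map_mul, map_natCast, map_natCast])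
  have hXY := hXY t
  have hXY' := hXY' t
  obtain ⟨Y, hY⟩ : ∃ Y : 𝓞 T, Y = y₀ + (t : 𝓞 T) * (N : 𝓞 T) := ⟨_, rfl⟩
  rw [← hY] at hXY hXY'
  have hNP : ∀ Q : PrI T, und K Q = ℓ → (t : 𝓞 T) * (N : 𝓞 T) ∈ Q.asIdeal := by
    intro Q hQ
    apply Ideal.mul_mem_left
    have h1 : (N : 𝓞 K) ∈ (und K Q).asIdeal := by rwa [hQ]
    have h2 : algebraMap (𝓞 K) (𝓞 T) (N : 𝓞 K) ∈ Q.asIdeal := h1
    rwa [map_natCast] at h2
  have hxa : X t - a ∈ ℓ.asIdeal := by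
    have h1 := hw Y (by
      have h2 := P.asIdeal.add_mem hy1 (hNP P hP)
      have h3 : Y - w = y₀ - w + (t : 𝓞 T) * (N : 𝓞 T) := by rw [hY]; ring
      rwa [h3]) (by
      intro τ hτ
      have h2 := (pg τ P).asIdeal.add_mem (hy2 τ hτ)
        (hNP (pg τ P) (by rw [Pool.Agent.STc.und_pg, hP]))
      have h3 : Y - 1 = y₀ - 1 + (t : 𝓞 T) * (N : 𝓞 T) := by rw [hY]; ring
      rwa [h3])
    rw [← hXY', ← map_sub] at h1
    have h4 : X t - a ∈ (und K P).asIdeal := h1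
    rwa [hP] at h4
  have hx1 : X t - 1 ∈ m := by
    have h1 : c ∣ X t - 1 := by
      refine norm_sub_one hc0 ?_ hXY'
      have h3 : Y - 1 = y₀ - 1 + (t : 𝓞 T) * (N : 𝓞 T) := by rw [hY]; ring
      rw [h3]
      apply Ideal.add_mem _ hy3
      apply Ideal.mul_mem_left
      rw [Ideal.mem_span_singleton] at hNc ⊢
      obtain ⟨d, hd⟩ := hNc
      refine ⟨algebraMap (𝓞 K) (𝓞 T) d, ?_⟩
      rw [← map_mul, ← hd, map_natCast]
    obtain ⟨d, hd⟩ := h1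
    rw [hd]
    exact m.mul_mem_right _ hcm
  refine ⟨Y, X t, ?_, hXY, hxa, hx1, ht⟩
  rintro rfl
  have h0 : algebraMap K T (X t : K) = 0 := by
    rw [hXY]
    apply Finset.prod_eq_zero (Finset.mem_univ 1)
    rw [map_zero, map_zero]
  have h1 : X t = 0 := by
    apply RingOfIntegers.coe_injective
    rw [map_zero]
    exact (map_eq_zero _).1 h0
  rw [h1, zero_sub] at hxa
  exact ha (by simpa using ℓ.asIdeal.neg_mem hxa)

end INRB

/-- Norms from extensions unramified at `ℓ`. -/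
theorem exists_norm_eq {K : Type*} [Field K] [NumberField K] [Algebra K ℝ]
    (σ₂ : K →+* ℝ) {m : Ideal (𝓞 K)} (hm : m ≠ ⊥) {ℓ : PrI K}
    (hℓ : ¬ ℓ.asIdeal ∣ m) {T : IntermediateField K ℝ} [FiniteDimensional K T] [IsGalois K T]
    (hun : ∀ P : PrI T, und K P = ℓ → Algebra.IsUnramifiedAt (𝓞 K) P.asIdeal)
    {a : 𝓞 K} (ha : a ∉ ℓ.asIdeal) : ∃ (y : ℝ) (x : 𝓞 K), IsInt T y ∧ y ≠ 0 ∧
      algebraMap K ℝ (x : K) = ∏ τ : T ≃ₐ[K] T, act τ y ∧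
      x - a ∈ ℓ.asIdeal ∧ x - 1 ∈ m ∧ 0 < σ₂ (x : K) := by
  have := numberField_of_fd T
  obtain ⟨g, hg⟩ := exists_over (H := T) σ₂
  obtain ⟨Y, x, hY0, hXY, hxa, hx1, hx2⟩ := INRB.main hg hℓ hun ha
  have hact : algebraMap K ℝ (x : K) = ∏ τ : T ≃ₐ[K] T, act τ ((Y : T) : ℝ) := by
    have h1 := congrArg (fun u : T => (u : ℝ)) hXY
    have h2 : ((∏ τ : T ≃ₐ[K] T, τ (Y : T) : T) : ℝ) =
        ∏ τ : T ≃ₐ[K] T, ((τ (Y : T) : T) : ℝ) :=
      map_prod (algebraMap T ℝ) _ _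
    have h3 : ∏ τ : T ≃ₐ[K] T, act τ ((Y : T) : ℝ) =
        ∏ τ : T ≃ₐ[K] T, ((τ (Y : T) : T) : ℝ) :=
      Finset.prod_congr rfl (fun τ _ => act_coe τ _)
    rw [h3, ← h2]
    exact h1
  refine ⟨((Y : T) : ℝ), x, Pool.Agent.STc.isInt_coe _, ?_, hact, hxa, hx1, hx2⟩
  intro h0
  apply hY0
  apply RingOfIntegers.coe_injective
  rw [map_zero]
  exact Subtype.ext h0

end Pool.Agent.STe
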