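import Pool.Agent.Lib.MP_1ef7cf_nt.Mg.G005
import Pool.Agent.Lib.MP_1ef7cf_nt_b.FinalT
import Pool.Agent.Lib.MP_1ef7cf_nt_d.FUL

/-!
# The inertia field
-/

set_option linter.unusedSectionVars false
set_option linter.style.haveILetI false

open NumberField IsDedekindDomain nonZeroDivisors IntermediateField

namespace Pool.Agent.STe

open Pool.Agent.ST Pool.Agent.STb Pool.Agent.STd
open Pool.Agent.STc (IsInt rd IsUn)

section inertia

/-- The prime of the inertia field below `P` has ramification index one. -/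
theorem ramIdx_one_aux {K E L : Type*} [Field K] [NumberField K] [Field E] [NumberField E]
    [Field L] [NumberField L] [Algebra K E] [Algebra E L] [Algebra K L] [IsScalarTower K E L]
    [IsGalois K L] (P : PrI L)
    [h : IsGaloisGroup (P.asIdeal.inertia (L ≃ₐ[K] L)) E L] :
    (und E P).asIdeal.ramificationIdx (𝓞 K) = 1 := by
  set I := P.asIdeal.inertia (L ≃ₐ[K] L) with hI
  haveI hg1 : IsGaloisGroup (L ≃ₐ[K] L) (𝓞 K) (𝓞 L) := IsGaloisGroup.of_isFractionRing _ _ _ K L
  haveI hg2 : IsGaloisGroup I (𝓞 E) (𝓞 L) := IsGaloisGroup.of_isFractionRing _ _ _ E L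
  haveI : P.asIdeal.LiesOver (und E P).asIdeal := ⟨rfl⟩
  haveI : P.asIdeal.LiesOver (und K P).asIdeal := ⟨rfl⟩
  haveI : P.asIdeal.IsPrime := P.isPrime
  haveI : (und E P).asIdeal.IsPrime := (und E P).isPrime
  haveI : (und K P).asIdeal.IsPrime := (und K P).isPrime
  haveI : (und E P).asIdeal.IsMaximal := (und E P).isMaximal
  haveI : (und K P).asIdeal.IsMaximal := (und K P).isMaximal
  haveI : Finite (𝓞 E ⧸ (und E P).asIdeal) :=
    Ideal.finiteQuotientOfFreeOfNeBot _ (und E P).ne_bot
  haveI : Finite (𝓞 K ⧸ (und K P).asIdeal) :=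
    Ideal.finiteQuotientOfFreeOfNeBot _ (und K P).ne_bot
  have h1 := Ideal.card_inertia_eq_ramificationIdxIn (G := L ≃ₐ[K] L) (und K P).asIdeal P.asIdeal
  have h2 := Ideal.card_inertia_eq_ramificationIdxIn (G := I) (und E P).asIdeal P.asIdeal
  have h3 : Nat.card (P.asIdeal.inertia I) = Nat.card I := by
    have : P.asIdeal.inertia I = ⊤ := by
      rw [eq_top_iff]
      intro γ _ x
      exact γ.2 x
    rw [this]
    exact Nat.card_congr Subgroup.topEquiv.toEquiv
  have h4 := Ideal.ramificationIdx_tower (R := 𝓞 K) (und E P).asIdeal P.asIdeal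
  rw [Ideal.ramificationIdxIn_eq_ramificationIdx (und K P).asIdeal P.asIdeal (L ≃ₐ[K] L)] at h1
  rw [Ideal.ramificationIdxIn_eq_ramificationIdx (und E P).asIdeal P.asIdeal I] at h2
  rw [h3, hI, h1] at h2
  rw [← h2] at h4
  have h5 : 0 < P.asIdeal.ramificationIdx (𝓞 K) := Ideal.ramificationIdx_pos _ _
  nlinarith

end inertia

variable {K : Type*} [Field K] [NumberField K] [Algebra K ℝ] {σ₂ : K →+* ℝ}

/-- the inertia field -/
theorem exists_inertia {H' : IntermediateField K ℝ} [FiniteDimensional K H']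
    [IsAbelianGalois K H'] (P : PrI H') : ∃ I : Subgroup (H' ≃ₐ[K] H'),
      (∀ γ ∈ I, ∀ x, IsInt H' x → rd P (act γ x) = rd P x) ∧
      ∀ P' : PrI (IntermediateField.lift (IntermediateField.fixedField I) :
        IntermediateField K ℝ), und K P' = und K P →
        Algebra.IsUnramifiedAt (𝓞 K) P'.asIdeal := by
  have hG : IsGalois K H' := inferInstance
  have := numberField_of_fd H'
  refine ⟨P.asIdeal.inertia (H' ≃ₐ[K] H'), fun γ hγ x hx => ?_, ?_⟩
  · rw [STc.rd_of (hx.act γ), STc.rd_of hx, STc.IsInt.toO_act hx]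
    exact Ideal.Quotient.eq.2 (hγ hx.toO)
  · set I := P.asIdeal.inertia (H' ≃ₐ[K] H') with hI
    set T : IntermediateField K ℝ := IntermediateField.lift (IntermediateField.fixedField I)
      with hT
    have hle : T ≤ H' := IntermediateField.lift_le _
    have hfd : FiniteDimensional K T := fd_of_le hle
    have := numberField_of_fd T
    let _ : Algebra T H' := (inclusion hle).toAlgebra
    have hst : IsScalarTower K T H' := IsScalarTower.of_algebraMap_eq' rfl
    have hab : IsAbelianGalois K T := IsAbelianGalois.tower_bot K T H'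
    have hGT : IsGalois K T := inferInstance
    have hmem : ∀ x : ℝ, ∀ hx : x ∈ H', x ∈ T ↔ ∀ σ ∈ I, σ ⟨x, hx⟩ = ⟨x, hx⟩ := by
      intro x hx
      rw [hT, IntermediateField.mem_lift (⟨x, hx⟩ : H'), IntermediateField.mem_fixedField_iff]
    have hgg : IsGaloisGroup I T H' := by
      constructor
      · infer_instance
      · refine ⟨fun g x y => ?_⟩
        have h1 : ∀ z : T, g • (inclusion hle z) = inclusion hle z := fun z =>
          (hmem z.1 (hle z.2)).1 z.2 g.1 g.2
        rw [Algebra.smul_def, Algebra.smul_def, smul_mul']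
        congr 1
        exact h1 x
      · refine ⟨fun y hy => ?_⟩
        refine ⟨⟨y.1, (hmem y.1 y.2).2 fun σ hσ => hy ⟨σ, hσ⟩⟩, ?_⟩
        rfl
    have key : (und T P).asIdeal.ramificationIdx (𝓞 K) = 1 := ramIdx_one_aux P
    intro P' hP'
    haveI hg1 : IsGaloisGroup (T ≃ₐ[K] T) (𝓞 K) (𝓞 T) := IsGaloisGroup.of_isFractionRing _ _ _ K T
    haveI : P'.asIdeal.LiesOver (und K P).asIdeal := ⟨by rw [← hP']; rfl⟩
    haveI : (und T P).asIdeal.LiesOver (und K P).asIdeal := ⟨by rw [← und_und (E₁ := T) P]; rfl⟩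
    haveI : P'.asIdeal.IsPrime := P'.isPrime
    have h1 := Ideal.ramificationIdx_eq_of_isGaloisGroup (und K P).asIdeal P'.asIdeal
      (und T P).asIdeal (T ≃ₐ[K] T)
    rw [key] at h1
    haveI : Finite (𝓞 K ⧸ (P'.asIdeal.under (𝓞 K))) :=
      Ideal.finiteQuotientOfFreeOfNeBot _ (und K P').ne_bot
    haveI : (P'.asIdeal.under (𝓞 K)).IsMaximal := (und K P').isMaximal
    exact Ideal.ramificationIdx_eq_one_iff.1 h1

end Pool.Agent.STe
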