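import Pool.Agent.Lib.MP_1ef7cf_nt_e.INRA
import Pool.Agent.Lib.MP_1ef7cf_nt_e.INRB
import Pool.Agent.Lib.MP_1ef7cf_nt_e.INRC

/-!
# Total ramification of the ray class field at the new prime (TG2, module INR)
-/

set_option linter.unusedSectionVars false

open NumberField IsDedekindDomain nonZeroDivisors IntermediateField

namespace Pool.Agent.STe

open Pool.Agent.ST Pool.Agent.STb Pool.Agent.STd
open Pool.Agent.STc (IsInt rd)

variable {K : Type*} [Field K] [NumberField K] [Algebra K ℝ] {σ₂ : K →+* ℝ}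

/-- an Artin symbol with a positive residue -/
lemma exists_norm_rep {m : Ideal (𝓞 K)} {ℓ : PrI K} (hm : m ≠ ⊥) (hℓ : ¬ ℓ.asIdeal ∣ m)
    (A : RayClassGroup σ₂ (m * ℓ.asIdeal)) (hA : pr σ₂ (Ideal.mul_le_left : m * ℓ.asIdeal ≤ m) A = 1) :
    ∃ a : 𝓞 K, a ∉ ℓ.asIdeal ∧ ∀ x : 𝓞 K, x - a ∈ ℓ.asIdeal → x - 1 ∈ m → 0 < σ₂ (x : K) →
      ∃ J : primeTo (K := K) (m * ℓ.asIdeal),
        ((J : (FI K)ˣ) : FI K) = ((Ideal.span {x} : Ideal (𝓞 K)) : FI K) ∧ cls σ₂ _ J = A := by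
  have hle' : m * ℓ.asIdeal ≤ m := Ideal.mul_le_left
  have hne' : m * ℓ.asIdeal ≠ ⊥ := mul_ne_bot' hm ℓ.ne_bot
  obtain ⟨J', rfl⟩ := cls_surjective _ A
  rw [pr_cls] at hA
  rw [cls_eq_one_iff, coe_inc] at hA
  obtain ⟨b, c, hb, hc, hbc, hb0, hc0, hpos, hJe⟩ := rep hne' J'.2 hA
  have hcq : Ideal.Quotient.mk ℓ.asIdeal c ≠ 0 := by
    intro h0
    rw [Ideal.Quotient.eq_zero_iff_mem] at h0
    have h1 : IsCoprime (Ideal.span {c}) ℓ.asIdeal := isCoprime_of_le hc Ideal.mul_le_right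
    rw [isCoprime_comm, coprime_prime_iff, Ideal.dvd_iff_le,
      Ideal.span_singleton_le_iff_mem] at h1
    exact h1 h0
  have hbq : Ideal.Quotient.mk ℓ.asIdeal b ≠ 0 := by
    intro h0
    rw [Ideal.Quotient.eq_zero_iff_mem] at h0
    have h1 : IsCoprime (Ideal.span {b}) ℓ.asIdeal := isCoprime_of_le hb Ideal.mul_le_right
    rw [isCoprime_comm, coprime_prime_iff, Ideal.dvd_iff_le,
      Ideal.span_singleton_le_iff_mem] at h1
    exact h1 h0
  obtain ⟨g, hg0, hg⟩ : ∃ g : 𝓞 K ⧸ ℓ.asIdeal, g ≠ 0 ∧ Ideal.Quotient.mk ℓ.asIdeal b =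
      Ideal.Quotient.mk ℓ.asIdeal c * g := by
    have := ℓ.isMaximal
    let _ : Field (𝓞 K ⧸ ℓ.asIdeal) := Ideal.Quotient.field ℓ.asIdeal
    refine ⟨(Ideal.Quotient.mk ℓ.asIdeal c)⁻¹ * Ideal.Quotient.mk ℓ.asIdeal b,
      mul_ne_zero (inv_ne_zero hcq) hbq, ?_⟩
    rw [mul_inv_cancel_left₀ hcq]
  obtain ⟨a, rfl⟩ := Ideal.Quotient.mk_surjective g
  refine ⟨a, fun ha => hg0 (Ideal.Quotient.eq_zero_iff_mem.2 ha), fun x hx1 hx2 hx3 => ?_⟩
  have hx0 : x ≠ 0 := ne_zero_of_pos hx3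
  have hx0' : (x : K) ≠ 0 := coe_ne_zero' hx0
  have hxℓ : IsCoprime (Ideal.span {x}) ℓ.asIdeal := by
    rw [isCoprime_comm, coprime_prime_iff, Ideal.dvd_iff_le, Ideal.span_singleton_le_iff_mem]
    intro hmem
    apply hg0
    rw [← Ideal.Quotient.eq.2 hx1]
    exact Ideal.Quotient.eq_zero_iff_mem.2 hmem
  have hxn : IsCoprime (Ideal.span {x}) (m * ℓ.asIdeal) :=
    (coprime_span_of_sub_one_mem hx2).mul_right hxℓ
  let J : primeTo (K := K) (m * ℓ.asIdeal) :=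
    ⟨uP (x : K) hx0', coe_mem_primeTo (I := Ideal.span {x}) (by rw [coe_uP, coe_span_singleton]) hxn⟩
  have hJ : ((J : (FI K)ˣ) : FI K) = (Ideal.span {x} : Ideal (𝓞 K)) := by
    rw [coe_span_singleton]; rfl
  refine ⟨J, hJ, ?_⟩
  have hbz : b - c * x ∈ m * ℓ.asIdeal := by
    rw [mem_mul_iff hℓ]
    constructor
    · have : b - c * x = (b - c) - c * (x - 1) := by ring
      rw [this]
      exact m.sub_mem hbc (m.mul_mem_left _ hx2)
    · rw [← Ideal.Quotient.eq, map_mul, Ideal.Quotient.eq.2 hx1]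
      exact hg
  rw [cls_eq_iff]
  refine ⟨(b : K) / ((c * x : 𝓞 K) : K), ⟨b, c * x, ?_, hbz, rfl⟩, ?_, ?_⟩
  · rw [← Ideal.span_singleton_mul_span_singleton]
    exact hc.mul_left hxn
  · have e3 : (b : K) / ((c * x : 𝓞 K) : K) = ((b : K) / (c : K)) / (x : K) := by
      simp only [RingOfIntegers.coe_eq_algebraMap, map_mul]
      rw [div_div]
    rw [e3, map_div₀]
    exact div_pos hpos hx3
  · rw [Units.val_mul, Units.val_inv_eq_inv_val, hJe]
    have hJz : ((J : (FI K)ˣ) : FI K) = FractionalIdeal.spanSingleton (𝓞 K)⁰ (x : K) := rfl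
    rw [hJz, FractionalIdeal.spanSingleton_inv,
      FractionalIdeal.spanSingleton_mul_spanSingleton]
    congr 1
    simp only [RingOfIntegers.coe_eq_algebraMap, map_mul]
    rw [mul_comm, ← div_eq_mul_inv, div_div]

/-- `ℓ` is totally ramified in `H' / H`. -/
theorem rd_act_of_res_one {m : Ideal (𝓞 K)} {ℓ : PrI K} {H H' : IntermediateField K ℝ}
    {Art : RayClassGroup σ₂ m ≃* (H ≃ₐ[K] H)}
    {Art' : RayClassGroup σ₂ (m * ℓ.asIdeal) ≃* (H' ≃ₐ[K] H')} (hm : m ≠ ⊥)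
    (hℓ : ¬ ℓ.asIdeal ∣ m) (h : IsRayClassField σ₂ m H Art)
    (h' : IsRayClassField σ₂ (m * ℓ.asIdeal) H' Art') (hle : H ≤ H') [Normal K H]
    {γ : H' ≃ₐ[K] H'} (hγ : res hle γ = 1) {P : PrI H'} (hP : und K P = ℓ) {x : ℝ}
    (hx : IsInt H' x) : rd P (act γ x) = rd P x := by
  have hle' : m * ℓ.asIdeal ≤ m := Ideal.mul_le_left
  have hne' : m * ℓ.asIdeal ≠ ⊥ := mul_ne_bot' hm ℓ.ne_bot
  have := h'.finite
  have := h'.isRCF.abelian
  obtain ⟨I, hI, hun⟩ := exists_inertia (K := K) P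
  apply hI γ _ x hx
  apply mem_of_fix
  set T : IntermediateField K ℝ := IntermediateField.lift (IntermediateField.fixedField I) with hT
  have hTH : T ≤ H' := IntermediateField.lift_le _
  have : IsAbelianGalois K T := isAbelianGalois_of_le hTH
  have : FiniteDimensional K T := fd_of_le hTH
  obtain ⟨A, rfl⟩ := Art'.surjective γ
  rw [IsRCF.res_art hle' hne' Set.finite_empty Set.finite_empty h'.isRCF h.isRCF] at hγ
  have hA : pr σ₂ hle' A = 1 := by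
    apply Art.injective
    rw [map_one]; exact hγ
  obtain ⟨a, ha, hrep⟩ := exists_norm_rep hm hℓ A hA
  obtain ⟨y, z, hy, hy0, hyz, hz1, hz2, hz3⟩ := exists_norm_eq σ₂ hm hℓ (T := T)
    (fun P' hP' => hun P' (by rw [hP', hP])) ha
  obtain ⟨J, hJ, hJA⟩ := hrep z hz1 hz2 hz3
  have h5 := res_art_norm hne' h' hTH hy hy0 hyz hJ
  rw [hJA, res_eq_one_iff] at h5
  exact h5

end Pool.Agent.STe
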