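import Pool.Agent.Lib.MP_1ef7cf_nt_c.Flds
import Pool.Agent.Lib.MP_1ef7cf_nt_c.Red

/-!
# The Artin symbol of the norm of an element is trivial
-/

set_option linter.unusedSectionVars false
set_option linter.style.haveILetI false

open NumberField IsDedekindDomain nonZeroDivisors IntermediateField

namespace Pool.Agent.STe

open Pool.Agent.ST Pool.Agent.STb
open Pool.Agent.STc (IsInt rd frobAt_rcf)

section frob

variable {K E : Type*} [Field K] [NumberField K] [Field E] [NumberField E] [Algebra K E]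

lemma inra_mk_pow {P : PrI E} {σ : E ≃ₐ[K] E} (h : IsFrob K P σ) (k : ℕ) (x : 𝓞 E) :
    Ideal.Quotient.mk P.asIdeal (σ ^ k • x) =
      Ideal.Quotient.mk P.asIdeal x ^ (pn (und K P) ^ k) := by
  induction k generalizing x with
  | zero => simp
  | succ k ih =>
    have h1 : Ideal.Quotient.mk P.asIdeal (σ • x) =
        Ideal.Quotient.mk P.asIdeal x ^ pn (und K P) := by
      rw [← map_pow]; exact Ideal.Quotient.eq.2 (h x)
    rw [pow_succ σ k, mul_smul, ih, h1, ← pow_mul, ← pow_succ']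

lemma inra_mk_pn (P : PrI E) (y : 𝓞 E ⧸ P.asIdeal) : y ^ pn P = y := by
  haveI : Finite (𝓞 E ⧸ P.asIdeal) := Ideal.finiteQuotientOfFreeOfNeBot P.asIdeal P.ne_bot
  haveI : P.asIdeal.IsMaximal := P.isMaximal
  letI : Field (𝓞 E ⧸ P.asIdeal) := Ideal.Quotient.field P.asIdeal
  haveI : Fintype (𝓞 E ⧸ P.asIdeal) := Fintype.ofFinite _
  have h1 : pn P = Fintype.card (𝓞 E ⧸ P.asIdeal) := by
    unfold pn
    rw [Ideal.absNorm_apply, Submodule.cardQuot_apply, Nat.card_eq_fintype_card]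
  rw [h1, FiniteField.pow_card]

/-- the power of the Frobenius element whose exponent is the inertia degree is trivial -/
lemma inra_frob_pow {P : PrI E} [Algebra.IsUnramifiedAt (𝓞 K) P.asIdeal] {σ : E ≃ₐ[K] E}
    (h : IsFrob K P σ) : σ ^ (P.asIdeal.inertiaDeg (𝓞 K)) = 1 := by
  have h1 : IsFrob K P (σ ^ (P.asIdeal.inertiaDeg (𝓞 K)) * σ) := by
    intro x
    rw [← Ideal.Quotient.eq, mul_smul, inra_mk_pow h, ← pn_eq_pow K P, inra_mk_pn]
    exact Ideal.Quotient.eq.2 (h x)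
  have h2 := isFrob_unique h1 h
  exact mul_eq_right.1 h2

end frob

variable {K : Type*} [Field K] [NumberField K] [Algebra K ℝ] {σ₂ : K →+* ℝ}

lemma inra_isGalois (T : IntermediateField K ℝ) [FiniteDimensional K T] [Normal K T] :
    IsGalois K T := { }

lemma inra_prime {n : Ideal (𝓞 K)} {H' T : IntermediateField K ℝ}
    {Art' : RayClassGroup σ₂ n ≃* (H' ≃ₐ[K] H')} (h' : IsRayClassField σ₂ n H' Art')
    [FiniteDimensional K T] [Normal K T] [NumberField T] (hT : T ≤ H') (P : PrI T)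
    {J : primeTo (K := K) n} (hJ : ((J : (FI K)ˣ) : FI K) =
      ((Ideal.relNorm (𝓞 K) P.asIdeal : Ideal (𝓞 K)) : FI K)) :
    res hT (Art' (cls σ₂ n J)) = 1 := by
  have := h'.finite
  have := h'.isRCF.abelian
  have := isAbelianGalois_of_le hT
  have hf : 0 < P.asIdeal.inertiaDeg (𝓞 K) := inertiaDeg_pos' K P
  haveI : P.asIdeal.LiesOver (und K P).asIdeal := ⟨rfl⟩
  haveI : P.asIdeal.IsMaximal := P.isMaximal
  haveI : (und K P).asIdeal.IsMaximal := (und K P).isMaximal
  have hN : Ideal.relNorm (𝓞 K) P.asIdeal =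
      (und K P).asIdeal ^ (P.asIdeal.inertiaDeg (𝓞 K)) :=
    Ideal.relNorm_eq_pow_of_isMaximal P.asIdeal (und K P).asIdeal
  rw [hN] at hJ
  have hv : ¬ (und K P).asIdeal ∣ n := by
    rw [← coprime_prime_iff]
    exact (IsCoprime.pow_left_iff hf).1 (coprime_of_mem_primeTo hJ J.2)
  have hJ2 : J = prJ n (und K P) hv ^ (P.asIdeal.inertiaDeg (𝓞 K)) := by
    apply Subtype.ext
    apply Units.ext
    rw [hJ, FractionalIdeal.coeIdeal_pow, Subgroup.coe_pow, Units.val_pow_eq_pow_val, coe_prJ]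
  rw [hJ2, map_pow, map_pow, map_pow]
  have h2 := frobAt_rcf h' hv
  haveI := h2.1.mono hT P rfl
  exact inra_frob_pow (h2.2.res hT P rfl)

lemma inra_ideal {n : Ideal (𝓞 K)} {H' T : IntermediateField K ℝ}
    {Art' : RayClassGroup σ₂ n ≃* (H' ≃ₐ[K] H')} (h' : IsRayClassField σ₂ n H' Art')
    [FiniteDimensional K T] [Normal K T] [NumberField T] (hT : T ≤ H') (I : Ideal (𝓞 T)) :
    I ≠ ⊥ → ∀ J : primeTo (K := K) n, ((J : (FI K)ˣ) : FI K) =
      ((Ideal.relNorm (𝓞 K) I : Ideal (𝓞 K)) : FI K) →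
    res hT (Art' (cls σ₂ n J)) = 1 := by
  induction I using UniqueFactorizationMonoid.induction_on_prime with
  | h₁ => intro h; exact absurd rfl h
  | h₂ I hI =>
    intro _ J hJ
    rw [Ideal.isUnit_iff.1 hI, Ideal.relNorm_top, FractionalIdeal.coeIdeal_top] at hJ
    have : J = 1 := by
      apply Subtype.ext
      apply Units.ext
      rw [hJ]; rfl
    rw [this, map_one, map_one, map_one]
  | h₃ I Q hI hQ ih =>
    intro _ J hJ
    rw [map_mul] at hJ
    have hcop := coprime_of_mem_primeTo hJ J.2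
    have hQ0 : Ideal.relNorm (𝓞 K) Q ≠ ⊥ := by
      rw [Ne, Ideal.relNorm_eq_bot_iff]; exact hQ.ne_zero
    have hI0 : Ideal.relNorm (𝓞 K) I ≠ ⊥ := by
      rw [Ne, Ideal.relNorm_eq_bot_iff]; exact hI
    let JQ : primeTo (K := K) n :=
      ⟨uI _ hQ0, coe_mem_primeTo (coe_uI _ _) hcop.of_mul_left_left⟩
    let JI : primeTo (K := K) n :=
      ⟨uI _ hI0, coe_mem_primeTo (coe_uI _ _) hcop.of_mul_left_right⟩
    have hJJ : J = JQ * JI := by
      apply Subtype.ext
      apply Units.ext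
      rw [hJ, FractionalIdeal.coeIdeal_mul]
      rfl
    have e1 : res hT (Art' (cls σ₂ n JQ)) = 1 :=
      inra_prime h' hT ⟨Q, Ideal.isPrime_of_prime hQ, hQ.ne_zero⟩ rfl
    have e2 : res hT (Art' (cls σ₂ n JI)) = 1 := ih hI JI rfl
    rw [hJJ, map_mul, map_mul, map_mul, e1, e2, one_mul]

/-- The Artin symbol of a norm is trivial. -/
theorem res_art_norm {n : Ideal (𝓞 K)} (hn : n ≠ ⊥) {H' T : IntermediateField K ℝ}
    {Art' : RayClassGroup σ₂ n ≃* (H' ≃ₐ[K] H')} (h' : IsRayClassField σ₂ n H' Art')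
    [FiniteDimensional K T] [Normal K T] (hT : T ≤ H') {y : ℝ} (hy : IsInt T y) (hy0 : y ≠ 0)
    {x : 𝓞 K} (hx : algebraMap K ℝ (x : K) = ∏ τ : T ≃ₐ[K] T, act τ y)
    {J : primeTo (K := K) n} (hJ : ((J : (FI K)ˣ) : FI K) =
      ((Ideal.span {x} : Ideal (𝓞 K)) : FI K)) :
    res hT (Art' (cls σ₂ n J)) = 1 := by
  have := numberField_of_fd T
  have := inra_isGalois T
  have hx' : Algebra.intNorm (𝓞 K) (𝓞 T) hy.toO = x := by
    apply RingOfIntegers.coe_injective
    apply (algebraMap K ℝ).injective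
    rw [hx, Algebra.algebraMap_intNorm (L := T), IsScalarTower.algebraMap_apply K T ℝ,
      Algebra.norm_eq_prod_automorphisms, map_prod]
    apply Finset.prod_congr rfl
    intro τ _
    exact (act_of_mem τ hy.1).symm
  apply inra_ideal h' hT (Ideal.span {hy.toO}) _ J
  · rw [hJ, Ideal.relNorm_singleton, hx']
  · rw [Ne, Ideal.span_singleton_eq_bot]
    intro h0
    apply hy0
    rw [← hy.coe_toO, h0]
    rfl

end Pool.Agent.STe
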