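import Pool.Agent.Lib.MP_1ef7cf_nt_d.CLA

/-!
# MP_1ef7cf_nt, module RAD: good auxiliary primes
-/

set_option linter.unusedSectionVars false

open NumberField IsDedekindDomain nonZeroDivisors IntermediateField

namespace Pool.Agent.STe

open Pool.Agent.ST Pool.Agent.STb Pool.Agent.STd

variable {K : Type*} [Field K] [NumberField K] [Algebra K ℝ] {σ₂ : K →+* ℝ}

/-- good auxiliary primes -/
structure GoodR (n : Ideal (𝓞 K)) (β : 𝓞 K) (N : ℕ) (r : PrI K) : Prop where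
  ndvd : ¬ r.asIdeal ∣ n
  un : ∀ w : (𝓞 K)ˣ, ∃ y : 𝓞 K ⧸ r.asIdeal, y ^ (2 ^ N) = Ideal.Quotient.mk _ (w : 𝓞 K)
  beta : ¬ ∃ y : 𝓞 K ⧸ r.asIdeal, y ^ (2 ^ N) = Ideal.Quotient.mk _ (β ^ 2)

theorem exists_beta' {n : Ideal (𝓞 K)} (hn : n ≠ ⊥) {ℓ : PrI K} (hℓ : ¬ ℓ.asIdeal ∣ n)
    {H : IntermediateField K ℝ} {Art : RayClassGroup σ₂ n ≃* (H ≃ₐ[K] H)}
    (hr : IsRayClassField σ₂ n H Art) : ∃ (f : ℕ) (β : 𝓞 K), f ≠ 0 ∧
      Ideal.span {β} = ℓ.asIdeal ^ f ∧ β - 1 ∈ n ∧ 0 < σ₂ (β : K) := by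
  have := hr.finite
  have : Finite (RayClassGroup σ₂ n) := Finite.of_equiv _ Art.symm.toEquiv
  have hfin : 0 < orderOf (cls σ₂ n (prJ n ℓ hℓ)) := orderOf_pos _
  have h1 := pow_orderOf_eq_one (cls σ₂ n (prJ n ℓ hℓ))
  rw [← map_pow, cls_eq_one_iff] at h1
  obtain ⟨α, hα1, hα2, hα3⟩ := h1
  rw [Subgroup.coe_pow, Units.val_pow_eq_pow_val, coe_prJ, ← FractionalIdeal.coeIdeal_pow] at hα3
  obtain ⟨x, hx1, hx2, hx3⟩ := int_of_coe_eq hα1 hα3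
  exact ⟨_, x, hfin.ne', hx3.symm, hx2, by rw [hx1]; exact hα2⟩

theorem mem_MN_of_fix {n : Ideal (𝓞 K)} (hn : n ≠ ⊥) {H : IntermediateField K ℝ}
    {Art : RayClassGroup σ₂ n ≃* (H ≃ₐ[K] H)} (hr : IsRayClassField σ₂ n H Art) {ℓ : PrI K}
    {f N : ℕ} {β : 𝓞 K} (hβ : Ideal.span {β} = ℓ.asIdeal ^ f) (hN : ¬ 2 ^ N ∣ 2 * (2 * f))
    {ε₀ : (𝓞 K)ˣ} (hε₀ : ∀ w : (𝓞 K)ˣ, ∃ k : ℤ, w = ε₀ ^ k ∨ w = -ε₀ ^ k) {x : ℝ} (hx : x ∈ H)
    (hfix : ∀ (r : PrI K) (hr : GoodR n β N r),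
      act (Art (cls σ₂ n (prJ n r hr.ndvd))) x = x) :
    (x : ℂ) ∈ MN ((ε₀ : 𝓞 K) : K) N := by
  by_contra hxM
  have hfd := hr.finite
  have hab : IsAbelianGalois K H := hr.isRCF.abelian
  have hβ' : Ideal.span {β ^ 2} = ℓ.asIdeal ^ (2 * f) := by
    rw [← Ideal.span_singleton_pow, hβ, ← pow_mul, mul_comm]
  set e : K := ((ε₀ : 𝓞 K) : K) with he
  have hFH : K⟮x⟯ ≤ H := adjoin_simple_le_iff.2 hx
  have : IsAbelianGalois K K⟮x⟯ := isAbelianGalois_of_le hFH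
  have : FiniteDimensional K K⟮x⟯ := fd_of_le hFH
  have gx : IsGalois K K⟮(x : ℂ)⟯ := adjoin_coe_galois
  have fx : FiniteDimensional K K⟮(x : ℂ)⟯ := by
    rw [adjoin_coe]
    exact Module.Finite.equiv (IntermediateField.equivMap K⟮x⟯ (jR K)).toLinearEquiv
  have gM : IsGalois K (MN e N) := gal_MN e N
  have fM : FiniteDimensional K (MN e N) := fd_MN e N
  have gM₁ := gal_MNβ e ((β ^ 2 : 𝓞 K) : K) N
  have fM₁ := fd_MNβ e ((β ^ 2 : 𝓞 K) : K) N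
  have gM₂ : IsGalois K (MN e N ⊔ K⟮(x : ℂ)⟯ : IntermediateField K ℂ) := by
    have : Normal K (MN e N ⊔ K⟮(x : ℂ)⟯ : IntermediateField K ℂ) := inferInstance
    exact ⟨⟩
  set T : IntermediateField K ℂ :=
    IntermediateField.adjoin K {z : ℂ | z ^ (2 ^ N) = algebraMap K ℂ ((β ^ 2 : 𝓞 K) : K)} with hT
  obtain ⟨w, hw⟩ := IsAlgClosed.exists_pow_nat_eq (algebraMap K ℂ ((β ^ 2 : 𝓞 K) : K))
    (show 0 < 2 ^ N by positivity)
  have hwT : w ∈ T := subset_adjoin K _ hw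
  have h1 : MN e N < MN e N ⊔ T := by
    refine lt_of_le_of_ne le_sup_left fun hh => ?_
    apply notMem_MN hN hβ' ε₀ hw
    rw [← he, hh]
    exact (le_sup_right : T ≤ _) hwT
  have h2 : MN e N < MN e N ⊔ K⟮(x : ℂ)⟯ := by
    refine lt_of_le_of_ne le_sup_left fun hh => ?_
    apply hxM
    rw [hh]
    exact (le_sup_right : K⟮(x : ℂ)⟯ ≤ _) (mem_adjoin_simple_self K _)
  obtain ⟨L, hNL, hGL, hL₁, hL₂, P, σ, hPB, hσ, e0, ⟨x₁, hx₁, e1⟩, ⟨x₂, hx₂, e2⟩⟩ :=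
    exists_twoC h1 h2 ({q | q.asIdeal ∣ n} ∪ {q | (2 : 𝓞 K) ∈ q.asIdeal} ∪ {ℓ})
      (((finite_dvd hn).union (finite_two K)).union (Set.finite_singleton ℓ))
  rw [Set.mem_union, Set.mem_union, not_or, not_or] at hPB
  obtain ⟨⟨hq, hq2⟩, hqv⟩ := hPB
  have hq : ¬ (und K P).asIdeal ∣ n := hq
  have hq2 : (2 : 𝓞 K) ∉ (und K P).asIdeal := hq2
  have hqv : und K P ≠ ℓ := hqv
  have hML : MN e N ≤ L := h1.le.trans hL₁
  have hfM : MN e N ≤ fixL σ := fun z hz => (mem_fixL σ (hML hz)).2 (e0 z hz)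
  -- roots of unity
  have hζ := Complex.isPrimitiveRoot_exp (2 ^ (N + 1)) (by positivity)
  set ζ : ℂ := Complex.exp (2 * Real.pi * Complex.I / (2 ^ (N + 1) : ℕ)) with hζdef
  have hζM : ζ ∈ MN e N := subset_adjoin K _ (Or.inr hζ.pow_eq_one)
  have hζneg : ζ ^ (2 ^ N) = -1 := by
    have h3 : (ζ ^ (2 ^ N)) ^ 2 = 1 := by rw [← pow_mul, ← pow_succ]; exact hζ.pow_eq_one
    rcases sq_eq_one_iff_of_side_conds h3 with h4 | h4
    · exfalso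
      have h5 := hζ.pow_ne_one_of_pos_of_lt (l := 2 ^ N) (by positivity)
        (Nat.pow_lt_pow_right one_lt_two (Nat.lt_succ_self N))
      exact h5 h4
    · exact h4
  have hdvd : 2 ^ (N + 1) ∣ pn (und K P) - 1 := by
    have hζL : IsPrimitiveRoot (⟨ζ, hML hζM⟩ : L) (2 ^ (N + 1)) := by
      rw [← IsPrimitiveRoot.coe_submonoidClass_iff]
      exact hζ
    exact (fix_root_iff hσ hq2 hζL).1 (e0 ζ hζM)
  have hdvd' : 2 ^ N ∣ pn (und K P) - 1 := (pow_dvd_pow 2 (Nat.le_succ N)).trans hdvd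
  obtain ⟨ρ, hρ⟩ := IsAlgClosed.exists_pow_nat_eq (algebraMap K ℂ e)
    (show 0 < 2 ^ N by positivity)
  have hρM : ρ ∈ MN e N := subset_adjoin K _ (Or.inl hρ)
  have hun : ∀ w : (𝓞 K)ˣ,
      ∃ y : 𝓞 K ⧸ (und K P).asIdeal, y ^ (2 ^ N) = Ideal.Quotient.mk _ (w : 𝓞 K) := by
    intro w
    have hw' : (w : 𝓞 K) ∉ (und K P).asIdeal := fun hh =>
      (und K P).isPrime.ne_top (Ideal.eq_top_of_isUnit_mem _ hh w.isUnit)
    obtain ⟨z, hzM, hz⟩ : ∃ z ∈ MN e N, z ^ (2 ^ N) = algebraMap K ℂ ((w : 𝓞 K) : K) := by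
      obtain ⟨k, hk | hk⟩ := hε₀ w
      · refine ⟨ρ ^ k, zpow_mem hρM k, ?_⟩
        rw [← zpow_natCast, ← zpow_mul, mul_comm, zpow_mul, zpow_natCast, hρ, hk, ← map_zpow₀]
        congr 1
        rw [he, coe_zpow_unit]
      · refine ⟨ζ * ρ ^ k, mul_mem hζM (zpow_mem hρM k), ?_⟩
        rw [mul_pow, hζneg, ← zpow_natCast, ← zpow_mul, mul_comm k, zpow_mul, zpow_natCast, hρ, hk,
          ← map_zpow₀, neg_one_mul, ← map_neg]
        congr 1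
        rw [he, coe_neg_unit, coe_zpow_unit]
    refine (fix_iff_pow hσ hq2 hdvd' hw' (x := ⟨z, hML hzM⟩) ?_).1 (e0 z hzM)
    apply Subtype.ext
    exact hz
  have hβq : ¬ ∃ y : 𝓞 K ⧸ (und K P).asIdeal, y ^ (2 ^ N) = Ideal.Quotient.mk _ (β ^ 2) := by
    intro hy
    have hβP : β ^ 2 ∉ (und K P).asIdeal := by
      intro hh
      have h3 : (und K P).asIdeal ∣ ℓ.asIdeal ^ (2 * f) := by
        rw [← hβ']; exact Ideal.dvd_iff_le.2 ((Ideal.span_singleton_le_iff_mem _).2 hh)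
      have h4 := (und K P).prime.dvd_of_dvd_pow h3
      exact hqv (eq_of_dvd_prime h4)
    apply e1
    have hTf : MN e N ⊔ T ≤ fixL σ := by
      refine sup_le hfM ?_
      rw [hT, adjoin_le_iff]
      intro z hz
      have hzL : z ∈ L := hL₁ ((le_sup_right : T ≤ MN e N ⊔ T) (subset_adjoin K _ hz))
      refine (mem_fixL σ hzL).2 ((fix_iff_pow hσ hq2 hdvd' hβP (x := ⟨z, hzL⟩) ?_).2 hy)
      apply Subtype.ext
      exact hz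
    exact (mem_fixL σ _).1 (hTf hx₁)
  have hgood : GoodR n β N (und K P) := ⟨hq, hun, hβq⟩
  have hxL : (x : ℂ) ∈ L := hL₂ ((le_sup_right : K⟮(x : ℂ)⟯ ≤ _) (mem_adjoin_simple_self K _))
  have h5 := frob_real hr hσ hq hx hxL (hfix _ hgood)
  apply e2
  have hf2 : MN e N ⊔ K⟮(x : ℂ)⟯ ≤ fixL σ :=
    sup_le hfM (adjoin_simple_le_iff.2 ((mem_fixL σ hxL).2 h5))
  exact (mem_fixL σ _).1 (hf2 hx₂)

theorem four_dvd_order {n : Ideal (𝓞 K)} (hn : n ≠ ⊥) {ℓ r : PrI K}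
    (hℓ : ¬ ℓ.asIdeal ∣ n * r.asIdeal) {f N : ℕ} {β : 𝓞 K}
    (hβ : Ideal.span {β} = ℓ.asIdeal ^ f) (hβ1 : β - 1 ∈ n) (hβ2 : 0 < σ₂ (β : K))
    (hg : GoodR n β N r) :
    4 ∣ orderOf (cls σ₂ (n * r.asIdeal) (prJ (n * r.asIdeal) ℓ hℓ) ^ f) := by
  set J : primeTo (K := K) (n * r.asIdeal) := (prJ (n * r.asIdeal) ℓ hℓ) ^ f with hJdef
  have hJ : ((J : (FI K)ˣ) : FI K) = (Ideal.span {β} : Ideal (𝓞 K)) := by
    rw [hJdef, Subgroup.coe_pow, Units.val_pow_eq_pow_val, coe_prJ,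
      ← FractionalIdeal.coeIdeal_pow, hβ]
  rw [← map_pow, ← hJdef]
  obtain ⟨w, hw1, hw2⟩ := (cls_pow_eq_one hn hg.ndvd hβ1 hβ2 hJ _).1
    (pow_orderOf_eq_one (cls σ₂ (n * r.asIdeal) J))
  obtain ⟨y, hy⟩ := hg.un w
  by_contra h4
  have := r.isMaximal
  let _ : Field (𝓞 K ⧸ r.asIdeal) := Ideal.Quotient.field r.asIdeal
  have hb0 : Ideal.Quotient.mk r.asIdeal β ≠ 0 := by
    intro h0
    rw [Ideal.Quotient.eq_zero_iff_mem, ← Ideal.span_singleton_le_iff_mem, hβ,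
      ← Ideal.dvd_iff_le] at h0
    have h1 : r = ℓ := eq_of_dvd_prime (r.prime.dvd_of_dvd_pow h0)
    exact hℓ (h1 ▸ Dvd.intro_left _ rfl)
  have hb2 : Ideal.Quotient.mk r.asIdeal (β ^ 2) ≠ 0 := by
    rw [map_pow]; exact pow_ne_zero 2 hb0
  have hpow : Ideal.Quotient.mk r.asIdeal β ^ orderOf (cls σ₂ (n * r.asIdeal) J) =
      y ^ (2 ^ N) := by
    rw [hy, ← map_pow]
    exact Ideal.Quotient.eq.2 hw2
  apply hg.beta
  rcases Nat.even_or_odd (orderOf (cls σ₂ (n * r.asIdeal) J)) with ⟨k, hk⟩ | hodd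
  · have hkodd : Odd k := by
      rw [← Nat.not_even_iff_odd]
      rintro ⟨j, hj⟩
      apply h4
      exact ⟨j, by omega⟩
    refine pow_two_of_odd hb2 hkodd (y := y) ?_
    rw [map_pow, ← pow_mul, two_mul, ← hk, hpow]
  · refine pow_two_of_odd hb2 hodd (y := y ^ 2) ?_
    rw [map_pow, ← pow_mul, mul_comm 2, pow_mul, hpow, ← pow_mul, ← pow_mul, mul_comm]

end Pool.Agent.STe
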