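import Pool.Agent.Lib.MP_1ef7cf_nt_d.CLA

/-!
# The totally real lemma

Real elements of `MN e N` which are abelian over `K` are totally real.
-/

set_option linter.unusedSectionVars false

open NumberField IsDedekindDomain nonZeroDivisors IntermediateField

namespace Pool.Agent.STe

open Pool.Agent.ST Pool.Agent.STb Pool.Agent.STd

set_option linter.style.haveILetI false

namespace TRL

variable {K : Type*} [Field K] [NumberField K] [Algebra K ℝ] {σ₂ : K →+* ℝ}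

lemma conj_root {n : ℕ} (hn : n ≠ 0) {z : ℂ} (hz : z ^ n = 1) :
    (starRingEnd ℂ) z = z⁻¹ := by
  have h1 : ‖z‖ = 1 := by
    have := congrArg norm hz
    rw [norm_pow, norm_one] at this
    exact (pow_eq_one_iff_of_nonneg (norm_nonneg _) hn).1 this
  rw [Complex.inv_def, Complex.normSq_eq_norm_sq, h1]
  simp

/-- the embedding of `K(x)` in a field of complex numbers -/
noncomputable def jF {M : IntermediateField K ℂ} {x : ℝ} (hxM : (x : ℂ) ∈ M) : K⟮x⟯ →ₐ[K] M :=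
  ((jR K).comp K⟮x⟯.val).codRestrict M.toSubalgebra (by
    intro y
    have hL : K⟮(x : ℂ)⟯ ≤ M := adjoin_simple_le_iff.2 hxM
    apply hL
    rw [adjoin_coe]
    exact ⟨(y : ℝ), y.2, rfl⟩)

lemma jF_gen {M : IntermediateField K ℂ} {x : ℝ} (hxM : (x : ℂ) ∈ M) :
    jF hxM ⟨x, mem_adjoin_simple_self K x⟩ = ⟨(x : ℂ), hxM⟩ := rfl

lemma exists_resF {M : IntermediateField K ℂ} {x : ℝ} (hxM : (x : ℂ) ∈ M)
    [Normal K K⟮x⟯] (s : M ≃ₐ[K] M) :
    ∃ s' : K⟮x⟯ ≃ₐ[K] K⟮x⟯, ∀ y, s (jF hxM y) = jF hxM (s' y) := by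
  letI : Algebra K⟮x⟯ M := (jF hxM).toRingHom.toAlgebra
  haveI : IsScalarTower K K⟮x⟯ M := IsScalarTower.of_algebraMap_eq (fun a =>
    ((jF hxM).commutes a).symm)
  exact ⟨s.restrictNormal K⟮x⟯, fun y => (AlgEquiv.restrictNormal_commutes s K⟮x⟯ y).symm⟩

lemma comm_on {M : IntermediateField K ℂ} {x : ℝ} (hxM : (x : ℂ) ∈ M)
    [IsAbelianGalois K K⟮x⟯] (s t : M ≃ₐ[K] M) :
    s (t ⟨(x : ℂ), hxM⟩) = t (s ⟨(x : ℂ), hxM⟩) := by
  obtain ⟨s', hs⟩ := exists_resF hxM s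
  obtain ⟨t', ht⟩ := exists_resF hxM t
  rw [← jF_gen hxM, hs, ht, hs, ht, ← AlgEquiv.mul_apply, ← AlgEquiv.mul_apply,
    IsMulCommutative.is_comm.comm s' t']

lemma exists_compare {K F : Type*} [Field K] [Field F] [Algebra K F] [Normal K F]
    {σ₂ : K →+* ℝ} {g₁ g₂ : F →+* ℂ} (h₁ : ∀ a : K, g₁ (algebraMap K F a) = (σ₂ a : ℂ))
    (h₂ : ∀ a : K, g₂ (algebraMap K F a) = (σ₂ a : ℂ)) :
    ∃ s : F ≃ₐ[K] F, ∀ x, g₁ x = g₂ (s x) := by
  letI : Algebra K ℂ := ((algebraMap ℝ ℂ).comp σ₂).toAlgebra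
  letI : Algebra F ℂ := g₂.toAlgebra
  haveI : IsScalarTower K F ℂ := IsScalarTower.of_algebraMap_eq (fun a => (h₂ a).symm)
  let g : F →ₐ[K] ℂ := { g₁ with commutes' := h₁ }
  obtain ⟨s, hs⟩ := (Normal.algHomEquivAut K ℂ F).symm.surjective g
  exact ⟨s, fun x => (congrArg (fun f : F →ₐ[K] ℂ => f x) hs).symm⟩

lemma exists_embC {K F : Type*} [Field K] [Field F] [Algebra K F] [FiniteDimensional K F]
    (σ₂ : K →+* ℝ) : ∃ g : F →+* ℂ, ∀ a : K, g (algebraMap K F a) = (σ₂ a : ℂ) := by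
  letI : Algebra K ℂ := ((algebraMap ℝ ℂ).comp σ₂).toAlgebra
  let g' : F →ₐ[K] ℂ := IsAlgClosed.lift
  exact ⟨g'.toRingHom, fun a => g'.commutes a⟩

/-- comparison of two embeddings over `σ₂` -/
lemma act_conj_of_fixed {H : IntermediateField K ℝ} [FiniteDimensional K H]
    [IsAbelianGalois K H] {g : H →+* ℂ} (hg : Over σ₂ g) {C : H ≃ₐ[K] H}
    (hC : ∀ x ∈ H, emb g (act C x) = (starRingEnd ℂ) (emb g x)) {x : ℝ} (hx : x ∈ H)
    {M : IntermediateField K ℂ} (hxM : (x : ℂ) ∈ M) {gh : M →+* ℂ}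
    (hgh : ∀ a : K, gh (algebraMap K M a) = (σ₂ a : ℂ)) {c : M ≃ₐ[K] M}
    (hc : ∀ z, gh (c z) = (starRingEnd ℂ) (gh z)) (hcx : c ⟨(x : ℂ), hxM⟩ = ⟨(x : ℂ), hxM⟩) :
    act C x = x := by
  have hFH : K⟮x⟯ ≤ H := adjoin_simple_le_iff.2 hx
  have hab : IsAbelianGalois K K⟮x⟯ := isAbelianGalois_of_le hFH
  let g₁ : K⟮x⟯ →+* ℂ := g.comp (inclusion hFH).toRingHom
  let g₂ : K⟮x⟯ →+* ℂ := gh.comp (jF hxM).toRingHom
  have h₁ : ∀ a : K, g₁ (algebraMap K K⟮x⟯ a) = (σ₂ a : ℂ) := fun a => hg a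
  have h₂ : ∀ a : K, g₂ (algebraMap K K⟮x⟯ a) = (σ₂ a : ℂ) := fun a => by
    change gh (jF hxM (algebraMap K K⟮x⟯ a)) = _
    rw [(jF hxM).commutes]
    exact hgh a
  obtain ⟨s, hs⟩ := exists_compare h₁ h₂
  obtain ⟨c', hc'⟩ := exists_resF hxM c
  set x' : K⟮x⟯ := ⟨x, mem_adjoin_simple_self K x⟩ with hx'
  have e1 : ∀ y : K⟮x⟯, g₁ y = emb g (y : ℝ) := by
    intro y
    rw [emb_of_mem g (hFH y.2)]
    rfl
  have e2 : g₁ (res hFH C x') = (starRingEnd ℂ) (g₁ x') := by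
    rw [e1, e1]
    have h3 : ((res hFH C x' : K⟮x⟯) : ℝ) = act C x := by
      rw [← act_coe, act_res hFH C x'.2]
    rw [h3]
    exact hC x hx
  have e3 : s (res hFH C x') = c' (s x') := by
    apply g₂.injective
    rw [← hs, e2, hs]
    change (starRingEnd ℂ) (gh (jF hxM (s x'))) = gh (jF hxM (c' (s x')))
    rw [← hc', hc]
  have e4 : s (res hFH C x') = s (c' x') := by
    rw [e3, ← AlgEquiv.mul_apply, ← AlgEquiv.mul_apply, IsMulCommutative.is_comm.comm c' s]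
  have e5 : res hFH C x' = c' x' := s.injective e4
  have e6 : c' x' = x' := by
    apply (jF hxM).toRingHom.injective
    change jF hxM (c' x') = jF hxM x'
    rw [← hc']
    exact hcx
  have e7 : act (res hFH C) x = x := by
    rw [act_of_mem (res hFH C) x'.2]
    change ((res hFH C x' : K⟮x⟯) : ℝ) = x
    rw [e5, e6]
  rw [← act_res hFH C x'.2]
  exact e7

/-- the fourth root of a nonsquare is not in the cyclotomic extension -/
lemma root_notMem_KZ {e : K} (he3 : ¬ IsSquare e) {n : ℕ} (hn : 0 < n) {y : ℝ}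
    (hy : y ^ 4 = algebraMap K ℝ e) : (y : ℂ) ∉ KZ K n := by
  intro hyM
  obtain ⟨hfd, hgal⟩ := KZ_fd (K := K) hn
  set y' : KZ K n := ⟨(y : ℂ), hyM⟩ with hy'
  have hy4 : y' ^ 4 = algebraMap K _ e := by
    apply Subtype.ext
    change (y : ℂ) ^ 4 = algebraMap K ℂ e
    rw [IsScalarTower.algebraMap_apply K ℝ ℂ, ← hy]
    push_cast
    rfl
  have hfix : ∀ σ : KZ K n ≃ₐ[K] KZ K n, σ (y' ^ 2) = y' ^ 2 := by
    intro σ
    obtain ⟨z, hz, hz'⟩ := KZ_conj hn σ y'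
    have hzy : z = y' := Subtype.ext (by rw [hz]; exact Complex.conj_ofReal y)
    rw [hzy] at hz'
    obtain ⟨r, hr⟩ := Complex.conj_eq_iff_real.1 hz'.symm
    have h4 : (σ y') ^ 4 = y' ^ 4 := by rw [← map_pow, hy4, AlgEquiv.commutes]
    have h5 : r ^ 4 = y ^ 4 := by
      have := congrArg (fun z : KZ K n => (z : ℂ)) h4
      change ((σ y' : KZ K n) : ℂ) ^ 4 = (y : ℂ) ^ 4 at this
      rw [hr] at this
      exact_mod_cast this
    have h6 : r ^ 2 = y ^ 2 := by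
      have h7 : (r ^ 2) ^ 2 = (y ^ 2) ^ 2 := by rw [← pow_mul, ← pow_mul]; exact h5
      exact (pow_left_inj₀ (sq_nonneg r) (sq_nonneg y) two_ne_zero).1 h7
    apply Subtype.ext
    rw [map_pow]
    change ((σ y' : KZ K n) : ℂ) ^ 2 = (y : ℂ) ^ 2
    rw [hr]
    exact_mod_cast h6
  obtain ⟨t, ht⟩ := IntermediateField.mem_bot.1 ((IsGalois.mem_bot_iff_fixed _).2 hfix)
  apply he3
  refine ⟨t, ?_⟩
  apply (algebraMap K (KZ K n)).injective
  rw [← hy4, map_mul, ht]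
  ring

/-- Kummer theory: existence of an automorphism -/
lemma exists_tau {e : K} (he0 : e ≠ 0) (he3 : ¬ IsSquare e) {N : ℕ} {ρ : ℝ}
    (hρ : ρ ^ (2 ^ N) = algebraMap K ℝ e) (hρM : (ρ : ℂ) ∈ MN e N) {w : MN e N}
    (hw : w ^ (2 ^ (N - 1)) = 1) :
    ∃ τ : MN e N ≃ₐ[K] MN e N, (∀ z : MN e N, z ^ (2 ^ (N + 1)) = 1 → τ z = z) ∧
      τ ⟨(ρ : ℂ), hρM⟩ = w * ⟨(ρ : ℂ), hρM⟩ := by
  have hMfd := fd_MN e N
  have hMgal := gal_MN e N
  by_cases hN : N ≤ 1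
  · have h1 : N - 1 = 0 := by omega
    rw [h1, pow_zero, pow_one] at hw
    exact ⟨1, fun z _ => rfl, by rw [hw, one_mul]; rfl⟩
  push Not at hN
  have hKM : KZ K (2 ^ (N + 1)) ≤ MN e N := by
    unfold KZ MN
    rw [adjoin_le_iff]
    intro x hx
    exact subset_adjoin K _ (Or.inr hx)
  let M := MN e N
  let k₀ : IntermediateField K M := IntermediateField.restrict hKM
  let Γ : Subgroup (M ≃ₐ[K] M) := k₀.fixingSubgroup
  have hfixed : IntermediateField.fixedField Γ = k₀ := IsGalois.fixedField_fixingSubgroup k₀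
  -- roots of unity are fixed
  have hroot : ∀ z : M, z ^ (2 ^ (N + 1)) = 1 → z ∈ k₀ := by
    intro z hz
    rw [IntermediateField.mem_restrict]
    apply subset_adjoin K
    change (z : ℂ) ^ (2 ^ (N + 1)) = 1
    have := congrArg (fun z : M => (z : ℂ)) hz
    simpa using this
  have hρ0 : ρ ≠ 0 := by
    rintro rfl
    rw [zero_pow (by positivity)] at hρ
    exact he0 ((map_eq_zero _).1 hρ.symm)
  set ρ' : M := ⟨(ρ : ℂ), hρM⟩ with hρ'
  have hρ'0 : ρ' ≠ 0 := by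
    intro h
    apply hρ0
    have := congrArg (fun z : M => (z : ℂ)) h
    change (ρ : ℂ) = ((0 : M) : ℂ) at this
    have h2 : ((0 : M) : ℂ) = 0 := rfl
    rw [h2] at this
    exact_mod_cast this
  have hρ'n : ρ' ^ (2 ^ N) = algebraMap K M e := by
    apply Subtype.ext
    change (ρ : ℂ) ^ (2 ^ N) = algebraMap K ℂ e
    rw [IsScalarTower.algebraMap_apply K ℝ ℂ, ← hρ]
    push_cast
    rfl
  -- the element `e ^ (1 / 4)` is not fixed
  have hne : ρ' ^ (2 ^ (N - 2)) ∉ k₀ := by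
    intro h
    have h1 := (IntermediateField.mem_restrict hKM _).1 h
    have h2 : ((ρ' ^ (2 ^ (N - 2)) : M) : ℂ) = ((ρ ^ (2 ^ (N - 2)) : ℝ) : ℂ) := by
      push_cast
      rfl
    rw [h2] at h1
    refine root_notMem_KZ he3 (by positivity) (y := ρ ^ (2 ^ (N - 2))) ?_ h1
    rw [← pow_mul, ← hρ]
    congr 1
    obtain ⟨k, rfl⟩ := Nat.exists_eq_add_of_le hN
    have h3 : 1 + 1 + k - 2 = k := by omega
    rw [Nat.succ_eq_add_one, h3, pow_add]
    ring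
  rw [← hfixed, IntermediateField.mem_fixedField_iff] at hne
  push Not at hne
  obtain ⟨σ, hσ, hσne⟩ := hne
  -- the character
  have hfixΓ : ∀ z : M, z ^ (2 ^ (N + 1)) = 1 → σ z = z := fun z hz =>
    (IntermediateField.mem_fixingSubgroup_iff k₀ σ).1 hσ _ (hroot z hz)
  set χ : M := σ ρ' / ρ' with hχ
  have hχN : χ ^ (2 ^ N) = 1 := by
    rw [hχ, div_pow, ← map_pow, hρ'n, AlgEquiv.commutes, div_self]
    rw [← hρ'n]; exact pow_ne_zero _ hρ'0
  have hσχ : σ χ = χ := hfixΓ χ (by rw [pow_succ, pow_mul, hχN, one_pow])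
  have hχσ : σ ρ' = χ * ρ' := (div_mul_cancel₀ _ hρ'0).symm
  have hχne : χ ^ (2 ^ (N - 2)) ≠ 1 := by
    intro h
    apply hσne
    rw [map_pow, hχσ, mul_pow, h, one_mul]
  have hprim : IsPrimitiveRoot χ (orderOf χ) := IsPrimitiveRoot.orderOf χ
  obtain ⟨k, hk, hk'⟩ := (Nat.dvd_prime_pow Nat.prime_two).1 (orderOf_dvd_of_pow_eq_one hχN)
  have hkN : N - 1 ≤ k := by
    by_contra hcon
    apply hχne
    apply orderOf_dvd_iff_pow_eq_one.1
    rw [hk']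
    exact pow_dvd_pow 2 (by omega)
  rw [hk'] at hprim
  have hwk : w ^ (2 ^ k) = 1 := by
    obtain ⟨j, hj⟩ := pow_dvd_pow 2 hkN
    rw [hj, pow_mul, hw, one_pow]
  obtain ⟨i, -, hi⟩ := hprim.eq_pow_of_pow_eq_one hwk
  have hpow : ∀ (j : ℕ), (∀ z : M, σ z = z → (σ ^ j) z = z) ∧ (σ ^ j) ρ' = χ ^ j * ρ' := by
    intro j
    induction j with
    | zero => exact ⟨fun z _ => rfl, by rw [pow_zero, pow_zero, one_mul]; rfl⟩
    | succ j ih =>
      refine ⟨fun z hz => ?_, ?_⟩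
      · rw [pow_succ, AlgEquiv.mul_apply, hz]
        exact ih.1 z hz
      · rw [pow_succ, AlgEquiv.mul_apply, hχσ, map_mul, ih.1 χ hσχ, ih.2]
        ring
  refine ⟨σ ^ i, fun z hz => (hpow i).1 z (hfixΓ z hz), ?_⟩
  rw [(hpow i).2, hi]

end TRL

open TRL

variable {K : Type*} [Field K] [NumberField K] [Algebra K ℝ] {σ₂ : K →+* ℝ}

theorem act_conj_of_mem_MN {e : K} {N : ℕ} (he1 : 0 < algebraMap K ℝ e) (he2 : 0 < σ₂ e)
    (he3 : ¬ IsSquare e) {H : IntermediateField K ℝ} [FiniteDimensional K H]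
    [IsAbelianGalois K H] {g : H →+* ℂ} (hg : Over σ₂ g) {C : H ≃ₐ[K] H}
    (hC : ∀ x ∈ H, emb g (act C x) = (starRingEnd ℂ) (emb g x)) {x : ℝ} (hx : x ∈ H)
    (hxM : (x : ℂ) ∈ MN e N) : act C x = x := by
  have hMfd := fd_MN e N
  have hMgal := gal_MN e N
  have hFH : K⟮x⟯ ≤ H := adjoin_simple_le_iff.2 hx
  have hab : IsAbelianGalois K K⟮x⟯ := isAbelianGalois_of_le hFH
  have he0 : e ≠ 0 := by
    rintro rfl
    rw [map_zero] at he1
    exact lt_irrefl _ he1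
  let M := MN e N
  -- the real root
  obtain ⟨ρ, hρpos, hρ⟩ : ∃ ρ : ℝ, 0 < ρ ∧ ρ ^ (2 ^ N) = algebraMap K ℝ e :=
    ⟨(algebraMap K ℝ e) ^ ((2 ^ N : ℕ) : ℝ)⁻¹, Real.rpow_pos_of_pos he1 _,
      Real.rpow_inv_natCast_pow he1.le (by positivity)⟩
  have hρC : (ρ : ℂ) ^ (2 ^ N) = algebraMap K ℂ e := by
    rw [IsScalarTower.algebraMap_apply K ℝ ℂ, ← hρ]
    push_cast
    rfl
  have hρM : (ρ : ℂ) ∈ MN e N := subset_adjoin K _ (Or.inl hρC)
  set ρ' : M := ⟨(ρ : ℂ), hρM⟩ with hρ'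
  have hρ'n : ρ' ^ (2 ^ N) = algebraMap K M e := Subtype.ext hρC
  have hρ'0 : ρ' ≠ 0 := by
    intro h
    apply hρpos.ne'
    have := congrArg (fun z : M => (z : ℂ)) h
    change (ρ : ℂ) = ((0 : M) : ℂ) at this
    have h2 : ((0 : M) : ℂ) = 0 := rfl
    rw [h2] at this
    exact_mod_cast this
  -- an embedding over `σ₂`
  obtain ⟨g₀, hg₀⟩ : ∃ g₀ : M →+* ℂ, ∀ a : K, g₀ (algebraMap K M a) = (σ₂ a : ℂ) :=
    exists_embC σ₂
  -- adjust it
  obtain ⟨gh, hgh, R, hR0, hR⟩ : ∃ gh : M →+* ℂ, (∀ a : K, gh (algebraMap K M a) = (σ₂ a : ℂ)) ∧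
      ∃ R : ℝ, 0 < R ∧ gh (ρ' ^ (2 ^ (N - 1))) = (R : ℂ) := by
    rcases Nat.eq_zero_or_pos N with hN | hN
    · refine ⟨g₀, hg₀, σ₂ e, he2, ?_⟩
      have h1 : N - 1 = N := by omega
      rw [h1, hρ'n]
      exact hg₀ e
    set y : M := ρ' ^ (2 ^ (N - 1)) with hy
    have hy2 : y ^ 2 = algebraMap K M e := by
      rw [hy, ← pow_mul, ← hρ'n]
      congr 1
      obtain ⟨k, rfl⟩ := Nat.exists_eq_succ_of_ne_zero hN.ne'
      rw [Nat.succ_eq_add_one, Nat.add_sub_cancel, pow_succ]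
    have hs0 : 0 < Real.sqrt (σ₂ e) := Real.sqrt_pos.2 he2
    have hsq : ∀ z : ℂ, z ^ 2 = (σ₂ e : ℂ) → z = (Real.sqrt (σ₂ e) : ℂ) ∨
        z = -(Real.sqrt (σ₂ e) : ℂ) := by
      intro z hz
      apply sq_eq_sq_iff_eq_or_eq_neg.1
      rw [hz, ← Complex.ofReal_pow, Real.sq_sqrt he2.le]
    have hgy : (g₀ y) ^ 2 = (σ₂ e : ℂ) := by
      rw [← map_pow, hy2]; exact hg₀ e
    rcases hsq _ hgy with h1 | h1
    · exact ⟨g₀, hg₀, _, hs0, h1⟩
    · -- use an automorphism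
      obtain ⟨s, hs⟩ : ∃ s : M ≃ₐ[K] M, s y = -y := by
        have hyb : y ∉ (⊥ : IntermediateField K M) := by
          intro hh
          obtain ⟨t, ht⟩ := IntermediateField.mem_bot.1 hh
          apply he3
          refine ⟨t, ?_⟩
          apply (algebraMap K M).injective
          rw [map_mul, ht, ← hy2, pow_two]
        have h2 : ¬ ∀ s : M ≃ₐ[K] M, s y = y := fun hh =>
          hyb ((IsGalois.mem_bot_iff_fixed _).2 hh)
        push Not at h2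
        obtain ⟨s, hs⟩ := h2
        refine ⟨s, ?_⟩
        have h3 : (s y) ^ 2 = y ^ 2 := by rw [← map_pow, hy2, AlgEquiv.commutes]
        rcases sq_eq_sq_iff_eq_or_eq_neg.1 h3 with h4 | h4
        · exact absurd h4 hs
        · exact h4
      refine ⟨g₀.comp (s : M ≃ₐ[K] M).toRingEquiv.toRingHom, ?_, _, hs0, ?_⟩
      · intro a
        change g₀ (s (algebraMap K M a)) = _
        rw [AlgEquiv.commutes]
        exact hg₀ a
      · change g₀ (s y) = _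
        rw [hs, map_neg, h1, neg_neg]
  -- complex conjugations
  obtain ⟨c₁, hc₁⟩ : ∃ c₁ : M ≃ₐ[K] M, ∀ z : M, ((c₁ z : M) : ℂ) = (starRingEnd ℂ) (z : ℂ) := by
    have h1 : ∀ a : K, (M.val : M →ₐ[K] ℂ).toRingHom (algebraMap K M a) =
        ((algebraMap K ℝ a : ℝ) : ℂ) := fun a => rfl
    obtain ⟨c₁, hc₁⟩ := exists_conj_aux h1
    exact ⟨c₁, hc₁⟩
  obtain ⟨c₂, hc₂⟩ := exists_conj_aux hgh
  refine act_conj_of_fixed hg hC hx hxM hgh hc₂ ?_
  -- the quotient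
  have hcoe : ∀ (z : M) (n : ℕ), z ^ n = 1 → (z : ℂ) ^ n = 1 := by
    intro z n hz
    have := congrArg (fun z : M => (z : ℂ)) hz
    simpa using this
  have hc₁root : ∀ z : M, z ^ (2 ^ (N + 1)) = 1 → c₁ z = z⁻¹ := by
    intro z hz
    apply Subtype.ext
    rw [hc₁, conj_root (by positivity) (hcoe z _ hz)]
    rfl
  have hc₂root : ∀ z : M, z ^ (2 ^ (N + 1)) = 1 → c₂ z = z⁻¹ := by
    intro z hz
    apply gh.injective
    rw [hc₂, map_inv₀, conj_root (n := 2 ^ (N + 1)) (by positivity)]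
    rw [← map_pow, hz, map_one]
  have hc₁ρ : c₁ ρ' = ρ' := by
    apply Subtype.ext
    rw [hc₁]
    exact Complex.conj_ofReal ρ
  obtain ⟨u, hu, hu2⟩ : ∃ u : M, u ^ (2 ^ (N - 1)) = 1 ∧ c₂ ρ' = u ^ 2 * ρ' := by
    set v : M := c₂ ρ' / ρ' with hv
    have hcv : c₂ ρ' = v * ρ' := (div_mul_cancel₀ _ hρ'0).symm
    set G : ℂ := gh ρ' with hG
    have hG0 : G ≠ 0 := (_root_.map_ne_zero _).2 hρ'0
    have hGR : G ^ (2 ^ (N - 1)) = (R : ℂ) := by rw [hG, ← map_pow]; exact hR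
    have hghv : gh v = (starRingEnd ℂ) G / G := by rw [hv, map_div₀, hc₂]
    rcases Nat.lt_or_ge N 2 with hN | hN
    · have h1 : N - 1 = 0 := by omega
      rw [h1, pow_zero, pow_one] at hGR
      have h2 : v = 1 := by
        apply gh.injective
        rw [hghv, hGR, Complex.conj_ofReal, map_one, div_self]
        rw [← hGR]; exact hG0
      exact ⟨1, one_pow _, by rw [hcv, h2, one_pow]⟩
    · -- `v` is a root of unity
      have hnorm : ‖G‖ ^ (2 ^ (N - 1)) = R := by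
        rw [← norm_pow, hGR, Complex.norm_real, Real.norm_of_nonneg hR0.le]
      have h2 : (gh v) ^ (2 ^ (N - 2)) = 1 := by
        have h3 : (starRingEnd ℂ) G / G = ((‖G‖ ^ 2 : ℝ) : ℂ) / G ^ 2 := by
          rw [div_eq_div_iff hG0 (pow_ne_zero 2 hG0), ← Complex.normSq_eq_norm_sq,
            ← Complex.mul_conj]
          ring
        have h4 : 2 * 2 ^ (N - 2) = 2 ^ (N - 1) := by
          obtain ⟨k, rfl⟩ := Nat.exists_eq_add_of_le hN
          have h5 : 2 + k - 2 = k := by omega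
          have h6 : 2 + k - 1 = k + 1 := by omega
          rw [h5, h6, pow_succ, mul_comm]
        rw [hghv, h3, div_pow, ← pow_mul, h4, hGR, ← Complex.ofReal_pow, ← pow_mul, h4, hnorm,
          div_self]
        exact_mod_cast hR0.ne'
      have h3 : v ^ (2 ^ (N - 2)) = 1 := by
        apply gh.injective
        rw [map_pow, h2, map_one]
      obtain ⟨u, hu⟩ := IsAlgClosed.exists_pow_nat_eq (v : ℂ) (show 0 < 2 by norm_num)
      have h4 : u ^ (2 ^ (N - 1)) = 1 := by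
        obtain ⟨k, rfl⟩ := Nat.exists_eq_add_of_le hN
        have h5 : 2 + k - 2 = k := by omega
        have h6 : 2 + k - 1 = k + 1 := by omega
        rw [h5] at h3
        rw [h6, pow_succ, mul_comm, pow_mul, hu]
        exact hcoe v _ h3
      have h5 : u ^ (2 ^ (N + 1)) = 1 := by
        obtain ⟨j, hj⟩ := pow_dvd_pow 2 (show N - 1 ≤ N + 1 by omega)
        rw [hj, pow_mul, h4, one_pow]
      have huM : u ∈ MN e N := subset_adjoin K _ (Or.inr h5)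
      refine ⟨⟨u, huM⟩, Subtype.ext h4, ?_⟩
      rw [hcv]
      congr 1
      exact Subtype.ext hu.symm
  obtain ⟨τ, hτ, hτρ⟩ := exists_tau he0 he3 hρ hρM hu
  have hu1 : u ^ (2 ^ (N + 1)) = 1 := by
    obtain ⟨j, hj⟩ := pow_dvd_pow 2 (show N - 1 ≤ N + 1 by omega)
    rw [hj, pow_mul, hu, one_pow]
  have hu0 : u ≠ 0 := by
    rintro rfl
    rw [zero_pow (by positivity)] at hu
    exact zero_ne_one hu
  -- the conjugacy
  have hconj : c₂ = τ * c₁ * τ⁻¹ := by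
    have hτi : ∀ z : M, z ^ (2 ^ (N + 1)) = 1 → τ⁻¹ z = z := by
      intro z hz
      apply τ.injective
      rw [← AlgEquiv.mul_apply, mul_inv_cancel, hτ z hz]
      rfl
    have hτiρ : τ⁻¹ ρ' = u⁻¹ * ρ' := by
      apply τ.injective
      rw [← AlgEquiv.mul_apply, mul_inv_cancel, map_mul, hτρ, map_inv₀, hτ u hu1]
      change ρ' = _
      rw [← mul_assoc, inv_mul_cancel₀ hu0, one_mul]
    have hroot : ∀ z : M, z ^ (2 ^ (N + 1)) = 1 → (τ * c₁ * τ⁻¹) z = c₂ z := by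
      intro z hz
      rw [AlgEquiv.mul_apply, AlgEquiv.mul_apply, hτi z hz, hc₁root z hz, hc₂root z hz, map_inv₀,
        hτ z hz]
    have hρ2 : (τ * c₁ * τ⁻¹) ρ' = c₂ ρ' := by
      rw [AlgEquiv.mul_apply, AlgEquiv.mul_apply, hτiρ, map_mul, hc₁ρ, map_inv₀, hc₁root u hu1,
        inv_inv, map_mul, hτ u hu1, hτρ, hu2]
      ring
    have hall : (c₂ : M →ₐ[K] M) = ((τ * c₁ * τ⁻¹ : M ≃ₐ[K] M) : M →ₐ[K] M) := by
      apply IntermediateField.adjoin_algHom_ext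
      intro z hz
      change c₂ (⟨z, _⟩ : M) = (τ * c₁ * τ⁻¹) (⟨z, _⟩ : M)
      have hzM : z ∈ MN e N := subset_adjoin K _ hz
      rcases hz with hz | hz
      · have h3 : ((⟨z, hzM⟩ : M) / ρ') ^ (2 ^ (N + 1)) = 1 := by
          apply Subtype.ext
          change (z / (ρ : ℂ)) ^ (2 ^ (N + 1)) = 1
          have h4 : algebraMap K ℂ e ≠ 0 := (_root_.map_ne_zero _).2 he0
          rw [pow_succ, pow_mul, div_pow, hρC, hz, div_self h4, one_pow]
        have h5 : (⟨z, hzM⟩ : M) = (⟨z, hzM⟩ : M) / ρ' * ρ' := (div_mul_cancel₀ _ hρ'0).symm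
        rw [h5, map_mul, map_mul, hroot _ h3, hρ2]
      · exact (hroot ⟨z, hzM⟩ (Subtype.ext hz)).symm
    apply AlgEquiv.ext
    intro z
    exact DFunLike.congr_fun hall z
  rw [hconj, AlgEquiv.mul_apply, comm_on hxM (τ * c₁) τ⁻¹, AlgEquiv.mul_apply, ← AlgEquiv.mul_apply,
    inv_mul_cancel]
  apply Subtype.ext
  change ((c₁ ⟨(x : ℂ), hxM⟩ : M) : ℂ) = (x : ℂ)
  rw [hc₁]
  exact Complex.conj_ofReal x

end Pool.Agent.STe
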