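import Pool.Agent.Lib.MP_1ef7cf_nt.Core4
import Pool.Agent.Lib.MP_1ef7cf_nt.SDefs

/-!
The algebraic core, with a pairing on a bigger field (TG2, module OMG).
-/

set_option linter.style.haveILetI false
set_option linter.unusedSectionVars false

open IntermediateField Polynomial

namespace Pool.Agent.STe

open Pool.Agent.ST

/-- **Algebraic core theorem**, with a pairing on a bigger field. -/
theorem core2 {K : Type*} [Field K] [Algebra K ℝ] {H L : IntermediateField K ℝ}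
    (σ₂ : K →+* ℝ) [FiniteDimensional K H] [IsAbelianGalois K H] [FiniteDimensional K L]
    [IsAbelianGalois K L] (hHL : H ≤ L)
    (e : (H ≃ₐ[K] H) → ℝ) (epos : ∀ σ, 0 < e σ) (eprod : ∏ σ, e σ = 1)
    {ι : Type*} (φ : ι → (H ≃ₐ[K] H)) (F : ι → IntermediateField K ℝ)
    [hfin : ∀ i, FiniteDimensional K (F i)] [hab : ∀ i, IsAbelianGalois K (F i)]
    (hF : ∀ i, H ≤ F i) (u : ι → ℝ) (hu : ∀ i, IsStarkUnit σ₂ (F i) (u i))
    (hnorm : ∀ i σ, fibProd (hF i) (u i) σ = e σ / e (σ * (φ i)⁻¹))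
    (hgen : Subgroup.closure (Set.range φ) = ⊤)
    (hL : ∀ σ, Real.sqrt (e σ / e 1) ∈ L)
    (Φ : ι → (L ≃ₐ[K] L)) (hΦ : ∀ i, res hHL (Φ i) = φ i)
    (hgenL : ∀ i, Subgroup.closure {g | ∃ j, j ≠ i ∧ Φ j = g} = ⊤)
    (hpair : ∀ i j, i ≠ j →
      Real.sqrt (fibProd (hF i) (u i) 1) / act (Φ j)⁻¹ (Real.sqrt (fibProd (hF i) (u i) 1)) =
      Real.sqrt (fibProd (hF j) (u j) 1) / act (Φ i)⁻¹ (Real.sqrt (fibProd (hF j) (u j) 1))) :
    IsStarkUnit σ₂ H (e 1) ∧ ∀ τ, act τ (e 1) = e τ := by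
  classical
  set S : Set (H ≃ₐ[K] H) := Set.range φ with hS
  set r : (H ≃ₐ[K] H) → ℝ := fun σ => Real.sqrt (e σ) with hr
  have r0 : ∀ σ, r σ ≠ 0 := fun σ => (Real.sqrt_pos.2 (epos σ)).ne'
  have rpos : ∀ σ, 0 < r σ := fun σ => Real.sqrt_pos.2 (epos σ)
  have rsq : ∀ σ, r σ ^ 2 = e σ := fun σ => Real.sq_sqrt (epos σ).le
  have e0 : ∀ σ, e σ ≠ 0 := fun σ => (epos σ).ne'
  -- Step D
  have Q2 : ∀ σ τ, (e σ / e τ ∈ H ∧ ∀ ρ : H ≃ₐ[K] H, act ρ (e σ / e τ) = e (ρ * σ) / e (ρ * τ)) := by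
    apply rel_all (fun σ τ => (e σ / e τ ∈ H ∧
      ∀ ρ : H ≃ₐ[K] H, act ρ (e σ / e τ) = e (ρ * σ) / e (ρ * τ))) _ _ _ S hgen
    · rintro φ₀ ⟨i, hi⟩ σ
      have hmem : e σ / e (σ * φ₀⁻¹) ∈ H := by
        rw [← hi, ← hnorm i σ]
        exact fibProd_mem_base (hF i) (hu i).mem σ
      refine ⟨hmem, ?_⟩
      intro ρ
      obtain ⟨ρ', hρ'⟩ := res_surjective (hF i) ρ
      rw [← hρ', act_res (hF i) ρ' hmem, ← hi, ← hnorm i σ, act_fibProd (hF i) (hu i).mem,
        hnorm i, mul_assoc]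
    · intro a
      refine ⟨by rw [div_self (e0 a)]; exact one_mem _, fun ρ => ?_⟩
      rw [div_self (e0 a), act_one_right, div_self (e0 _)]
    · intro a b ⟨h1, h2⟩
      refine ⟨by have := inv_mem h1; rwa [inv_div] at this, fun ρ => ?_⟩
      rw [← inv_div (e a) (e b), act_inv _ h1, h2 ρ, inv_div]
    · intro a b c ⟨h1, h2⟩ ⟨h3, h4⟩
      refine ⟨by have := mul_mem h1 h3; rwa [div_mul_div_cancel₀ (e0 b)] at this, fun ρ => ?_⟩
      rw [← div_mul_div_cancel₀ (c := e c) (e0 b), act_mul _ h1 h3, h2 ρ, h4 ρ,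
        div_mul_div_cancel₀ (e0 _)]
  -- absolute values
  have Q3 : ∀ g : H →+* ℂ, Over σ₂ g → ∀ σ τ, ‖emb g (e σ / e τ)‖ = 1 := by
    intro g hg
    apply rel_all (fun σ τ => ‖emb g (e σ / e τ)‖ = 1) _ _ _ S hgen
    · rintro φ₀ ⟨i, hi⟩ σ
      obtain ⟨g', hg'⟩ := exists_extend g (hF i)
      have hmem : e σ / e (σ * φ₀⁻¹) ∈ H := (Q2 _ _).1
      rw [← hg' _ hmem, ← hi, ← hnorm i σ, fibProd, emb_prod g' _ _ fun γ _ => act_mem γ (hu i).mem,
        norm_prod]
      apply Finset.prod_eq_one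
      intro γ _
      have h1 := (hu i).abs (g'.comp (γ : F i →+* F i)) (by
        intro a
        simp only [RingHom.comp_apply]
        have : (γ : F i →+* F i) (algebraMap K (F i) a) = algebraMap K (F i) a := γ.commutes a
        rw [this, ← hg a]
        have h3 := hg' (algebraMap K ℝ a) (H.algebraMap_mem a)
        rw [emb_of_mem _ (H.algebraMap_mem a), emb_of_mem _ ((F i).algebraMap_mem a)] at h3
        exact h3)
      rw [act_of_mem γ (hu i).mem, emb_coe]
      exact h1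
    · intro a
      rw [div_self (e0 a), emb_one, norm_one]
    · intro a b h
      rw [← inv_div (e a) (e b), emb_inv _ (Q2 a b).1, norm_inv, h, inv_one]
    · intro a b c h1 h2
      rw [← div_mul_div_cancel₀ (c := e c) (e0 b), emb_mul _ (Q2 a b).1 (Q2 b c).1, norm_mul, h1, h2,
        one_mul]
  -- integrality
  have Q4 : ∀ σ τ, (IsIntegral ℤ (e σ / e τ) ∧ IsIntegral ℤ (e τ / e σ)) := by
    apply rel_all (fun σ τ => (IsIntegral ℤ (e σ / e τ) ∧ IsIntegral ℤ (e τ / e σ))) _ _ _ S hgen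
    · rintro φ₀ ⟨i, hi⟩ σ
      constructor
      · rw [← hi, ← hnorm i σ]
        apply IsIntegral.prod
        intro γ _
        rw [act_of_mem γ (hu i).mem]
        have h1 : IsIntegral ℤ (⟨u i, (hu i).mem⟩ : F i) := by
          have := (hu i).int
          exact (isIntegral_algebraMap_iff (algebraMap (F i) ℝ).injective).1 this
        have h2 := h1.map ((γ : F i →+* F i).toIntAlgHom)
        exact h2.map (algebraMap (F i) ℝ).toIntAlgHom
      · rw [← hi, ← inv_div, ← hnorm i σ, fibProd, ← Finset.prod_inv_distrib]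
        apply IsIntegral.prod
        intro γ _
        rw [← act_inv _ (hu i).mem, act_of_mem γ (inv_mem (hu i).mem)]
        have h1 : IsIntegral ℤ (⟨(u i)⁻¹, inv_mem (hu i).mem⟩ : F i) := by
          have := (hu i).int_inv
          exact (isIntegral_algebraMap_iff (algebraMap (F i) ℝ).injective).1 this
        have h2 := h1.map ((γ : F i →+* F i).toIntAlgHom)
        exact h2.map (algebraMap (F i) ℝ).toIntAlgHom
    · intro a
      rw [div_self (e0 a)]; exact ⟨isIntegral_one, isIntegral_one⟩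
    · intro a b h; exact ⟨h.2, h.1⟩
    · intro a b c h1 h2
      constructor
      · rw [← div_mul_div_cancel₀ (c := e c) (e0 b)]; exact h1.1.mul h2.1
      · rw [← div_mul_div_cancel₀ (c := e a) (e0 b)]; exact h2.2.mul h1.2
  -- the function `d` on `Gal(L/K)`
  set d : (L ≃ₐ[K] L) → ℝ := fun g => r (res hHL g) / r 1 with hd
  have dL : ∀ g, d g ∈ L := by
    intro g
    have h1 := hL (res hHL g)
    rwa [Real.sqrt_div (epos _).le] at h1
  have dpos : ∀ g, 0 < d g := fun g => div_pos (rpos _) (rpos 1)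
  have d0 : ∀ g, d g ≠ 0 := fun g => (dpos g).ne'
  have done : ∀ g, res hHL g = 1 → d g = 1 := by
    intro g hg
    rw [hd]
    simp only
    rw [hg, div_self (r0 1)]
  have d1 : d 1 = 1 := done 1 (map_one _)
  have dsq : ∀ g, d g ^ 2 = e (res hHL g) / e 1 := by
    intro g
    rw [hd]; simp only
    rw [div_pow, rsq, rsq]
  have dcoc : ∀ g h, ∃ s : ℝ, (s = 1 ∨ s = -1) ∧ d (g * h) = s * (d g * act g (d h)) := by
    intro g h
    apply exists_sign
    rw [mul_pow, ← act_pow _ (dL h), dsq, dsq, dsq, ← act_res hHL g (Q2 (res hHL h) 1).1,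
      (Q2 (res hHL h) 1).2 (res hHL g), mul_one, map_mul, mul_comm, div_mul_div_cancel₀ (e0 _)]
  have hpairing : ∀ i k, i ≠ k → pairing d (Φ i)⁻¹ (Φ k)⁻¹ = 1 := by
    intro i k hik
    have hξ : ∀ l, Real.sqrt (fibProd (hF l) (u l) 1) = (d (Φ l)⁻¹)⁻¹ := by
      intro l
      rw [hnorm l 1, one_mul, Real.sqrt_div (epos 1).le, hd]
      simp only
      rw [map_inv, hΦ, inv_div]
    have key := hpair i k hik
    rw [hξ i, hξ k] at key
    set a : L ≃ₐ[K] L := (Φ i)⁻¹ with ha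
    set b : L ≃ₐ[K] L := (Φ k)⁻¹ with hb
    rw [act_inv _ (dL a), act_inv _ (dL b)] at key
    have na := act_ne_zero b (dL a) (d0 a)
    have nb := act_ne_zero a (dL b) (d0 b)
    unfold pairing
    have ca := d0 a
    have cb := d0 b
    rw [div_eq_one_iff_eq (mul_ne_zero nb ca)]
    field_simp at key
    linarith
  have hinvgen : ∀ S₀ : Set (L ≃ₐ[K] L), Subgroup.closure S₀ = ⊤ →
      Subgroup.closure {a | a⁻¹ ∈ S₀} = ⊤ := by
    intro S₀ hS₀
    rw [eq_top_iff, ← hS₀, Subgroup.closure_le]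
    intro a ha
    have : a⁻¹ ∈ Subgroup.closure {a | a⁻¹ ∈ S₀} := Subgroup.subset_closure (by simpa using ha)
    simpa using inv_mem this
  have hP1 : ∀ i τ, pairing d τ (Φ i)⁻¹ = 1 := by
    intro i τ
    apply pairing_sub d dL d0 dcoc d1 _ (hinvgen _ (hgenL i))
    rintro a ⟨k, hk, hk2⟩
    have h4 := hpairing k i hk
    rwa [hk2, inv_inv] at h4
  have hPL : ∀ σ τ, pairing d σ τ = 1 := by
    intro σ τ
    rcases isEmpty_or_nonempty ι with hι | ⟨⟨i₀⟩⟩
    · have h5 : ∀ ρ : H ≃ₐ[K] H, ρ = 1 := by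
        intro ρ
        have h6 : ρ ∈ Subgroup.closure S := by rw [hgen]; exact Subgroup.mem_top ρ
        rw [hS, Set.range_eq_empty, Subgroup.closure_empty] at h6
        exact Subgroup.mem_bot.1 h6
      unfold pairing
      rw [done σ (h5 _), done τ (h5 _), act_one_right, act_one_right]
      norm_num
    · apply pairing_sub d dL d0 dcoc d1 _ (hinvgen {g | ∃ j, j ≠ i₀ ∧ Φ j = g} (hgenL i₀))
      rintro a ⟨i, -, hi⟩
      have h4 := hP1 i τ
      rw [hi, inv_inv] at h4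
      rw [pairing_swap, h4, inv_one]
  have hcommL : ∀ σ τ, act τ (d σ) * d τ = act σ (d τ) * d σ := by
    intro σ τ
    have := hPL σ τ
    unfold pairing at this
    rwa [div_eq_one_iff_eq (mul_ne_zero (act_ne_zero σ (dL τ) (d0 τ)) (d0 σ))] at this
  have dH : ∀ g, d g ∈ H := by
    intro g
    apply mem_of_fixed hHL (dL g)
    intro z hz
    have h1 := hcommL z g
    rw [done z ((res_eq_one_iff hHL z).2 hz), act_one_right, one_mul, mul_one] at h1
    exact h1.symm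
  -- the cocycle c
  set c : (H ≃ₐ[K] H) → ℝ := fun σ => r σ / r 1 with hc
  have hcd : ∀ g, c (res hHL g) = d g := fun g => rfl
  have cH : ∀ σ, c σ ∈ H := by
    intro σ
    obtain ⟨g, rfl⟩ := res_surjective hHL σ
    exact dH g
  have cpos : ∀ σ, 0 < c σ := fun σ => div_pos (rpos σ) (rpos 1)
  have c0 : ∀ σ, c σ ≠ 0 := fun σ => (cpos σ).ne'
  have c1 : c 1 = 1 := div_self (r0 1)
  have csq : ∀ σ, c σ ^ 2 = e σ / e 1 := by
    intro σ
    rw [hc]; simp only
    rw [div_pow, rsq, rsq]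
  have hcomm : ∀ σ τ, act τ (c σ) * c τ = act σ (c τ) * c σ := by
    intro σ τ
    obtain ⟨g, rfl⟩ := res_surjective hHL σ
    obtain ⟨h, rfl⟩ := res_surjective hHL τ
    rw [hcd, hcd, act_res hHL h (dH g), act_res hHL g (dH h)]
    exact hcommL g h
  -- complex conjugation
  obtain ⟨g, hg⟩ := exists_over (H := H) σ₂
  obtain ⟨C, hC⟩ := exists_conj hg
  have habs : ∀ x ∈ H, ‖emb g x‖ = 1 → x * act C x = 1 := by
    intro x hx h
    apply emb_inj g (mul_mem hx (act_mem C hx)) (one_mem _)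
    rw [emb_mul g hx (act_mem C hx), hC x hx, Complex.mul_conj, Complex.normSq_eq_norm_sq, h,
      emb_one]
    simp
  have hκ : ∀ σ, e σ * e (C * σ) = e 1 * e C := by
    intro σ
    have h1 := habs _ (Q2 σ 1).1 (Q3 g hg σ 1)
    rw [(Q2 σ 1).2 C, mul_one] at h1
    have h2 := e0 1
    have h3 := e0 C
    field_simp at h1
    linarith
  have hκ1 : e 1 * e C = 1 := by
    have h1 : ∏ σ : H ≃ₐ[K] H, (e σ * e (C * σ)) = 1 := by
      rw [Finset.prod_mul_distrib, eprod, one_mul]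
      rw [← eprod]
      exact Fintype.prod_equiv (Equiv.mulLeft C) _ _ (fun σ => rfl)
    rw [Finset.prod_congr rfl fun σ _ => hκ σ, Finset.prod_const] at h1
    have h2 : (0 : ℝ) ≤ e 1 * e C := (mul_pos (epos 1) (epos C)).le
    exact (pow_eq_one_iff_of_nonneg h2 (by
      rw [Finset.card_univ]; exact Fintype.card_ne_zero)).1 h1
  have heC : e C = (e 1)⁻¹ := eq_inv_of_mul_eq_one_right hκ1
  have hcC : c C = (e 1)⁻¹ := by
    have h1 : c C ^ 2 = ((e 1)⁻¹) ^ 2 := by
      rw [csq, heC]; field_simp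
    exact (sq_eq_sq₀ (cpos C).le (inv_pos.2 (epos 1)).le).1 h1
  have he1 : e 1 = (c C)⁻¹ := by rw [hcC, inv_inv]
  have he1H : e 1 ∈ H := by rw [he1]; exact inv_mem (cH C)
  have hact : ∀ τ, act τ (e 1) = e τ := by
    intro τ
    have h1 := hcomm C τ
    have h2 : c τ * act C (c τ) = 1 := by
      apply habs _ (cH τ)
      have h3 : ‖emb g (c τ)‖ ^ 2 = 1 := by
        rw [← norm_pow, sq, ← emb_mul g (cH τ) (cH τ), ← sq, csq]
        exact Q3 g hg τ 1
      exact (pow_eq_one_iff_of_nonneg (norm_nonneg _) two_ne_zero).1 h3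
    have h5 : act C (c τ) = (c τ)⁻¹ := eq_inv_of_mul_eq_one_right h2
    have h4 : act τ (c C) = (e τ)⁻¹ := by
      rw [h5] at h1
      have h6 : act τ (c C) = (c τ)⁻¹ * c C / c τ := eq_div_of_mul_eq (c0 τ) h1
      have h7 : (c τ)⁻¹ * c C / c τ = c C / c τ ^ 2 := by
        have := c0 τ
        field_simp
      rw [h6, h7, csq, hcC]
      have h8 := e0 1
      have h9 := e0 τ
      field_simp
    rw [he1, act_inv _ (cH C), h4, inv_inv]
  refine ⟨⟨he1H, fun σ => by rw [hact]; exact epos σ, ?_, ?_, ?_, ?_⟩, hact⟩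
  · apply IsIntegral.of_pow (n := 2) (by norm_num)
    have : e 1 ^ 2 = e 1 / e C := by rw [heC]; field_simp
    rw [this]; exact (Q4 1 C).1
  · apply IsIntegral.of_pow (n := 2) (by norm_num)
    have : (e 1)⁻¹ ^ 2 = e C / e 1 := by rw [heC]; field_simp
    rw [this]; exact (Q4 1 C).2
  · intro g' hg'
    have h1 := Q3 g' hg' 1 C
    have h2 : e 1 / e C = e 1 * e 1 := by rw [heC]; field_simp
    rw [h2, emb_mul g' he1H he1H, norm_mul, ← sq] at h1
    have h3 := (pow_eq_one_iff_of_nonneg (norm_nonneg _) two_ne_zero).1 h1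
    rwa [emb_of_mem _ he1H] at h3
  · apply isAbelianGalois_sqrtExt he1H
    · intro σ; rw [hact]; exact epos σ
    · intro σ; rw [hact]; exact cH σ
    · intro σ τ
      rw [hact, hact]; exact hcomm σ τ

end Pool.Agent.STe
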