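import Pool.Agent.Lib.MP_1ef7cf_nt_c.KC
import Pool.Agent.Lib.MP_1ef7cf_nt_d.AS
import Pool.Agent.Lib.MP_1ef7cf_nt_e.Mg.G001

/-!
# Square roots of products of conjugates, compared at two primes
-/

set_option linter.unusedSectionVars false

open NumberField IsDedekindDomain nonZeroDivisors IntermediateField

namespace Pool.Agent.STe

open Pool.Agent.ST Pool.Agent.STb Pool.Agent.STd
open Pool.Agent.STc (IsInt rd IsUn)

variable {K : Type*} [Field K] [NumberField K] [Algebra K ℝ] {σ₂ : K →+* ℝ}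

section
variable {M : IntermediateField K ℝ} [FiniteDimensional K M]

/-- a sign character of a group of order divisible by four has product one -/
lemma pab_prod_sign {G : Type*} [Group G] (s : Finset G) (g₀s : ∀ g ∈ s, ∀ g' ∈ s, g * g' ∈ s)
    (ginv : ∀ g ∈ s, g⁻¹ ∈ s) (ψ : G → ℝ) (h1 : ∀ g ∈ s, ψ g = 1 ∨ ψ g = -1)
    (hmul : ∀ g ∈ s, ∀ g' ∈ s, ψ (g * g') = ψ g * ψ g') (h4 : 4 ∣ s.card) :
    ∏ g ∈ s, ψ g = 1 := by
  classical
  by_cases hall : ∀ g ∈ s, ψ g = 1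
  · exact Finset.prod_eq_one hall
  · push Not at hall
    obtain ⟨g₀, hg₀, hne⟩ := hall
    have hg₀' : ψ g₀ = -1 := (h1 g₀ hg₀).resolve_left hne
    have hprod : ∏ g ∈ s, ψ g = (-1) ^ (s.filter (fun g => ψ g = -1)).card := by
      have h2 : ∏ g ∈ s, ψ g = ∏ g ∈ s, (if ψ g = -1 then (-1 : ℝ) else 1) := by
        apply Finset.prod_congr rfl
        intro g hg
        rcases h1 g hg with h | h
        · rw [h, if_neg (by norm_num)]
        · rw [h, if_pos rfl]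
      rw [h2, Finset.prod_ite, Finset.prod_const, Finset.prod_const_one, mul_one]
    have hcard : (s.filter (fun g => ψ g = -1)).card = (s.filter (fun g => ¬ ψ g = -1)).card := by
      apply Finset.card_bij' (fun g _ => g₀ * g) (fun g _ => g₀⁻¹ * g)
      · intro g hg
        rw [Finset.mem_filter] at hg ⊢
        refine ⟨g₀s _ hg₀ _ hg.1, ?_⟩
        rw [hmul _ hg₀ _ hg.1, hg₀', hg.2]
        norm_num
      · intro g hg
        rw [Finset.mem_filter] at hg ⊢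
        have h3 : g₀⁻¹ * g ∈ s := g₀s _ (ginv _ hg₀) _ hg.1
        refine ⟨h3, ?_⟩
        have h4 := hmul _ hg₀ _ h3
        rw [mul_inv_cancel_left, hg₀', (h1 g hg.1).resolve_right hg.2] at h4
        linarith
      · intro g _; exact inv_mul_cancel_left _ _
      · intro g _; exact mul_inv_cancel_left _ _
    have htot := Finset.card_filter_add_card_filter_not (s := s) (fun g => ψ g = -1)
    have heven : Even (s.filter (fun g => ψ g = -1)).card := by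
      obtain ⟨k, hk⟩ := h4
      refine ⟨k, ?_⟩
      omega
    rw [hprod, heven.neg_one_pow]

/-- the square roots `√(γV / V)` -/
noncomputable def pab_b (V : ℝ) (γ : M ≃ₐ[K] M) : ℝ := Real.sqrt (act γ V) * Real.sqrt V / V

lemma pab_sqrt_mem [IsAbelianGalois K M] {V : ℝ} (hV : IsUn M V)
    (hpos : ∀ γ : M ≃ₐ[K] M, 0 < act γ V) (hAS : AS K V) (γ : M ≃ₐ[K] M) :
    Real.sqrt (act γ V) * Real.sqrt V ∈ M := by
  classical
  have hVM : V ∈ M := hV.int.1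
  have h1 : act (1 : M ≃ₐ[K] M) V = V := act_one_left hVM
  have hV0 : 0 < V := by have := hpos 1; rwa [h1] at this
  by_cases hγ : γ = 1
  · subst hγ
    rw [h1, Real.mul_self_sqrt hV0.le]
    exact hVM
  · obtain ⟨L, hL1, hL2, hL3⟩ := hAS
    have hsup : IsAbelianGalois K (M ⊔ L : IntermediateField K ℝ) := isAbelianGalois_sup
    have hab : IsAbelianGalois K (sqrtExt M V) :=
      isAbelianGalois_of_le (sqrtExt_le le_sup_left ((le_sup_right : L ≤ M ⊔ L) hL3))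
    have h2 := prod_sqrt_mem hVM hpos ({γ, 1} : Finset (M ≃ₐ[K] M))
      (by rw [Finset.card_pair hγ]; exact even_two)
    rwa [Finset.prod_pair hγ, h1] at h2

lemma pab_b_mem [IsAbelianGalois K M] {V : ℝ} (hV : IsUn M V)
    (hpos : ∀ γ : M ≃ₐ[K] M, 0 < act γ V) (hAS : AS K V) (γ : M ≃ₐ[K] M) :
    pab_b V γ ∈ M :=
  div_mem (pab_sqrt_mem hV hpos hAS γ) hV.int.1

lemma pab_b_sq {V : ℝ} (hV : IsUn M V) (hpos : ∀ γ : M ≃ₐ[K] M, 0 < act γ V)
    (γ : M ≃ₐ[K] M) : pab_b V γ ^ 2 = act γ V / V := by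
  have hVM : V ∈ M := hV.int.1
  have h1 : act (1 : M ≃ₐ[K] M) V = V := act_one_left hVM
  have hV0 : 0 < V := by have := hpos 1; rwa [h1] at this
  unfold pab_b
  rw [div_pow, mul_pow, Real.sq_sqrt (hpos γ).le, Real.sq_sqrt hV0.le]
  field_simp

lemma pab_act_inv {V : ℝ} (hV : IsUn M V) (γ : M ≃ₐ[K] M) : IsInt M (act γ V)⁻¹ := by
  rw [← act_inv γ hV.int.1]
  exact hV.inv.act γ

lemma pab_b_int [IsAbelianGalois K M] {V : ℝ} (hV : IsUn M V)
    (hpos : ∀ γ : M ≃ₐ[K] M, 0 < act γ V) (hAS : AS K V) (γ : M ≃ₐ[K] M) :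
    IsInt M (pab_b V γ) := by
  refine ⟨pab_b_mem hV hpos hAS γ, ?_⟩
  apply IsIntegral.of_pow (n := 2) (by norm_num)
  rw [pab_b_sq hV hpos γ, div_eq_mul_inv]
  exact ((hV.int.act γ).mul hV.inv).2

lemma pab_b_mul [IsAbelianGalois K M] {V : ℝ} (hV : IsUn M V)
    (hpos : ∀ γ : M ≃ₐ[K] M, 0 < act γ V) (hAS : AS K V) (g g' : M ≃ₐ[K] M) :
    ∃ ε : ℝ, (ε = 1 ∨ ε = -1) ∧ pab_b V (g * g') = ε * (pab_b V g * act g (pab_b V g')) := by
  have hb := pab_b_mem hV hpos hAS g'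
  have h1 : (pab_b V (g * g')) ^ 2 = (pab_b V g * act g (pab_b V g')) ^ 2 := by
    rw [mul_pow, ← act_pow g hb, pab_b_sq hV hpos, pab_b_sq hV hpos, pab_b_sq hV hpos,
      act_div g (act_mem g' hV.int.1) hV.int.1, ← act_comp g g' hV.int.1]
    have h2 := (hpos g).ne'
    have h3 := hV.ne
    field_simp
  rcases sq_eq_sq_iff_eq_or_eq_neg.1 h1 with h | h
  · exact ⟨1, Or.inl rfl, by rw [h, one_mul]⟩
  · exact ⟨-1, Or.inr rfl, by rw [h]; ring⟩

lemma pab_int_const {ε : ℝ} (hε : ε = 1 ∨ ε = -1) : IsInt M ε := by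
  rcases hε with rfl | rfl
  · exact IsInt.one
  · exact IsInt.one.neg

lemma pab_two_ne {P : PrI M} (h₁ : (2 : 𝓞 K) ∉ (und K P).asIdeal) :
    (2 : 𝓞 M ⧸ P.asIdeal) ≠ 0 := by
  intro h
  apply h₁
  have h2 : (Ideal.Quotient.mk P.asIdeal (2 : 𝓞 M)) = 0 := by
    rw [map_ofNat]; exact h
  rw [Ideal.Quotient.eq_zero_iff_mem] at h2
  have h3 : algebraMap (𝓞 K) (𝓞 M) 2 ∈ P.asIdeal := by
    rw [map_ofNat]; exact h2
  exact h3

lemma pab_rd_const_inj {P : PrI M} (h₁ : (2 : 𝓞 K) ∉ (und K P).asIdeal) {ε δ : ℝ}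
    (hε : ε = 1 ∨ ε = -1) (hδ : δ = 1 ∨ δ = -1) (h : rd P ε = rd P δ) : ε = δ := by
  have h2 := pab_two_ne h₁
  have hn : rd P (-1 : ℝ) = -1 := by rw [STc.rd_neg IsInt.one, STc.rd_one]
  have ho : rd P (1 : ℝ) = 1 := STc.rd_one
  rcases hε with rfl | rfl <;> rcases hδ with rfl | rfl
  · rfl
  · rw [hn, ho] at h
    exfalso; apply h2
    have : (2 : 𝓞 M ⧸ P.asIdeal) = 1 + 1 := by norm_num
    rw [this]; nth_rewrite 1 [h]; ring
  · rw [hn, ho] at h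
    exfalso; apply h2
    have : (2 : 𝓞 M ⧸ P.asIdeal) = 1 + 1 := by norm_num
    rw [this]; nth_rewrite 1 [← h]; ring
  · rfl

/-- the comparison at one prime -/
lemma pab_one [IsAbelianGalois K M] {V : ℝ} (hV : IsUn M V)
    (hpos : ∀ γ : M ≃ₐ[K] M, 0 < act γ V) (hAS : AS K V) (Q : Subgroup (M ≃ₐ[K] M))
    (h2c : 2 ∣ (elts Q).card) {P : PrI M} (h₁ : (2 : 𝓞 K) ∉ (und K P).asIdeal)
    (hin : ∀ γ ∈ Q, ∀ x, IsInt M x → rd P (act γ x) = rd P x)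
    {X : ℝ} (hX2 : X ^ 2 = ∏ γ ∈ elts Q, act γ V)
    (hX1 : rd P X = rd P V ^ ((elts Q).card / 2)) :
    ∃ s : (M ≃ₐ[K] M) → ℝ, (∀ γ ∈ Q, s γ = 1 ∨ s γ = -1) ∧
      (∀ g ∈ Q, ∀ g' ∈ Q, ∀ ε : ℝ, (ε = 1 ∨ ε = -1) →
        pab_b V (g * g') = ε * (pab_b V g * act g (pab_b V g')) →
        s (g * g') = ε * (s g * s g')) ∧
      X = (∏ γ ∈ elts Q, s γ) * ((∏ γ ∈ elts Q, pab_b V γ) * V ^ ((elts Q).card / 2)) := by
  classical
  have hPprime := P.isPrime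
  have hdom : IsDomain (𝓞 M ⧸ P.asIdeal) := Ideal.Quotient.isDomain P.asIdeal
  have hbi := fun γ => pab_b_int hV hpos hAS γ
  have hex : ∀ γ : M ≃ₐ[K] M, ∃ s : ℝ, γ ∈ Q → ((s = 1 ∨ s = -1) ∧
      rd P (pab_b V γ) = rd P s) := by
    intro γ
    by_cases hγ : γ ∈ Q
    · have h3 : rd P (pab_b V γ) ^ 2 = 1 := by
        rw [← STc.rd_pow (hbi γ), pab_b_sq hV hpos γ, div_eq_mul_inv,
          STc.rd_mul (hV.int.act γ) hV.inv, hin γ hγ V hV.int, ← STc.rd_mul hV.int hV.inv,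
          mul_inv_cancel₀ hV.ne, STc.rd_one]
      rw [sq] at h3
      rcases mul_self_eq_one_iff.1 h3 with h | h
      · exact ⟨1, fun _ => ⟨Or.inl rfl, by rw [h, STc.rd_one]⟩⟩
      · exact ⟨-1, fun _ => ⟨Or.inr rfl, by rw [h, STc.rd_neg IsInt.one, STc.rd_one]⟩⟩
    · exact ⟨1, fun h => absurd h hγ⟩
  choose s hs using hex
  have hsc : ∀ γ ∈ Q, s γ = 1 ∨ s γ = -1 := fun γ hγ => (hs γ hγ).1
  have hsr : ∀ γ ∈ Q, rd P (pab_b V γ) = rd P (s γ) := fun γ hγ => (hs γ hγ).2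
  have hmulc : ∀ a b : ℝ, (a = 1 ∨ a = -1) → (b = 1 ∨ b = -1) → (a * b = 1 ∨ a * b = -1) := by
    rintro a b (rfl | rfl) (rfl | rfl) <;> norm_num
  refine ⟨s, hsc, ?_, ?_⟩
  · intro g hg g' hg' ε hε hb
    apply pab_rd_const_inj h₁ (hsc _ (Q.mul_mem hg hg'))
      (hmulc _ _ hε (hmulc _ _ (hsc g hg) (hsc g' hg')))
    rw [← hsr _ (Q.mul_mem hg hg'), hb, STc.rd_mul (pab_int_const hε) ((hbi g).mul ((hbi g').act g)),
      STc.rd_mul (hbi g) ((hbi g').act g), hin g hg _ (hbi g'), hsr g hg, hsr g' hg',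
      STc.rd_mul (pab_int_const hε) ((pab_int_const (hsc g hg)).mul (pab_int_const (hsc g' hg'))),
      STc.rd_mul (pab_int_const (hsc g hg)) (pab_int_const (hsc g' hg'))]
  · set T : ℝ := (∏ γ ∈ elts Q, pab_b V γ) * V ^ ((elts Q).card / 2) with hT
    have hTint : IsInt M T := (IsInt.prod fun γ _ => hbi γ).mul (hV.int.pow _)
    have hT2 : T ^ 2 = X ^ 2 := by
      rw [hT, mul_pow, ← Finset.prod_pow, hX2, ← pow_mul,
        Nat.div_mul_cancel h2c]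
      rw [Finset.prod_congr rfl (fun γ _ => pab_b_sq hV hpos γ), Finset.prod_div_distrib,
        Finset.prod_const]
      have h3 : V ^ (elts Q).card ≠ 0 := pow_ne_zero _ hV.ne
      field_simp
    have hs1 : ∏ γ ∈ elts Q, s γ = 1 ∨ ∏ γ ∈ elts Q, s γ = -1 := by
      apply Finset.prod_induction (p := fun x : ℝ => x = 1 ∨ x = -1)
      · exact hmulc
      · exact Or.inl rfl
      · intro γ hγ
        exact hsc γ (mem_elts.1 hγ)
    have hprod : rd P (∏ γ ∈ elts Q, pab_b V γ) = rd P (∏ γ ∈ elts Q, s γ) := by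
      rw [STc.rd_prod (fun γ _ => hbi γ),
        STc.rd_prod (fun γ hγ => pab_int_const (hsc γ (mem_elts.1 hγ)))]
      apply Finset.prod_congr rfl
      intro γ hγ
      exact hsr γ (mem_elts.1 hγ)
    have hTr : rd P T = rd P (∏ γ ∈ elts Q, s γ) * rd P X := by
      rw [hT, STc.rd_mul (IsInt.prod fun γ _ => hbi γ) (hV.int.pow _), hprod,
        STc.rd_pow hV.int, hX1]
    have hX0 : rd P X ≠ 0 := by
      rw [hX1]
      exact pow_ne_zero _ (STc.rd_ne_zero hV.int hV.inv hV.ne)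
    -- X = ε T
    obtain ⟨ε, hε, hεX⟩ : ∃ ε : ℝ, (ε = 1 ∨ ε = -1) ∧ X = ε * T := by
      rcases sq_eq_sq_iff_eq_or_eq_neg.1 hT2 with h | h
      · exact ⟨1, Or.inl rfl, by rw [h, one_mul]⟩
      · exact ⟨-1, Or.inr rfl, by rw [h]; ring⟩
    have h5 : rd P X = rd P (ε * ∏ γ ∈ elts Q, s γ) * rd P X := by
      conv_lhs => rw [hεX, STc.rd_mul (pab_int_const hε) hTint, hTr]
      rw [STc.rd_mul (pab_int_const hε) (pab_int_const hs1), mul_assoc]
    have h6 : rd P (ε * ∏ γ ∈ elts Q, s γ) = rd P (1 : ℝ) := by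
      rw [STc.rd_one]
      have h7 : rd P (ε * ∏ γ ∈ elts Q, s γ) * rd P X = 1 * rd P X := by
        rw [one_mul]; exact h5.symm
      exact mul_right_cancel₀ hX0 h7
    have h8 : ε * ∏ γ ∈ elts Q, s γ = 1 :=
      pab_rd_const_inj h₁ (hmulc _ _ hε hs1) (Or.inl rfl) h6
    have h9 : ε = ∏ γ ∈ elts Q, s γ := by
      rcases hε with rfl | rfl <;> rcases hs1 with h | h <;> rw [h] at h8 ⊢ <;> norm_num at h8
    rw [← h9]
    exact hεX

theorem pab [IsAbelianGalois K M] {V : ℝ} (hV : IsUn M V)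
    (hpos : ∀ γ : M ≃ₐ[K] M, 0 < act γ V) (hAS : AS K V) (Q : Subgroup (M ≃ₐ[K] M))
    (h4 : 4 ∣ (elts Q).card) {P₁ P₂ : PrI M} (h₁ : (2 : 𝓞 K) ∉ (und K P₁).asIdeal)
    (h₂ : (2 : 𝓞 K) ∉ (und K P₂).asIdeal)
    (hin₁ : ∀ γ ∈ Q, ∀ x, IsInt M x → rd P₁ (act γ x) = rd P₁ x)
    (hin₂ : ∀ γ ∈ Q, ∀ x, IsInt M x → rd P₂ (act γ x) = rd P₂ x)
    {X Y : ℝ} (hX : X ∈ M) (hY : Y ∈ M) (hX2 : X ^ 2 = ∏ γ ∈ elts Q, act γ V)
    (hY2 : Y ^ 2 = ∏ γ ∈ elts Q, act γ V)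
    (hX1 : rd P₁ X = rd P₁ V ^ ((elts Q).card / 2))
    (hY1 : rd P₂ Y = rd P₂ V ^ ((elts Q).card / 2)) : X = Y := by
  have h2c : 2 ∣ (elts Q).card := dvd_trans (by norm_num) h4
  obtain ⟨s, hs1, hs2, hs3⟩ := pab_one hV hpos hAS Q h2c h₁ hin₁ hX2 hX1
  obtain ⟨t, ht1, ht2, ht3⟩ := pab_one hV hpos hAS Q h2c h₂ hin₂ hY2 hY1
  have hst : ∏ γ ∈ elts Q, (s γ * t γ) = 1 := by
    apply pab_prod_sign (elts Q) (fun g hg g' hg' => ?_) (fun g hg => ?_) (fun g => s g * t g)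
      (fun g hg => ?_) (fun g hg g' hg' => ?_) h4
    · exact mem_elts.2 (Q.mul_mem (mem_elts.1 hg) (mem_elts.1 hg'))
    · exact mem_elts.2 (Q.inv_mem (mem_elts.1 hg))
    · rcases hs1 g (mem_elts.1 hg) with h | h <;> rcases ht1 g (mem_elts.1 hg) with h' | h' <;>
        simp only [h, h'] <;> norm_num
    · obtain ⟨ε, hε, hb⟩ := pab_b_mul hV hpos hAS g g'
      have h5 := hs2 g (mem_elts.1 hg) g' (mem_elts.1 hg') ε hε hb
      have h6 := ht2 g (mem_elts.1 hg) g' (mem_elts.1 hg') ε hε hb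
      simp only [h5, h6]
      rcases hε with rfl | rfl <;> ring
  rw [Finset.prod_mul_distrib] at hst
  have hs4 : ∏ γ ∈ elts Q, s γ = 1 ∨ ∏ γ ∈ elts Q, s γ = -1 := by
    apply Finset.prod_induction (p := fun x : ℝ => x = 1 ∨ x = -1)
    · rintro a b (rfl | rfl) (rfl | rfl) <;> norm_num
    · exact Or.inl rfl
    · intro γ hγ
      exact hs1 γ (mem_elts.1 hγ)
  have hst2 : ∏ γ ∈ elts Q, s γ = ∏ γ ∈ elts Q, t γ := by
    rcases hs4 with h | h <;> rw [h] at hst ⊢ <;> linarith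
  rw [hs3, ht3, hst2]

end

end Pool.Agent.STe
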