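import Pool.Agent.Lib.MP_1ef7cf_nt_d.GEN

/-!
# The inert primes (TG2, module QPR)
-/

set_option linter.unusedSectionVars false

open NumberField IsDedekindDomain nonZeroDivisors IntermediateField

namespace Pool.Agent.STe

open Pool.Agent.ST Pool.Agent.STb Pool.Agent.STd

variable {K : Type*} [Field K] [NumberField K] [Algebra K ℝ] {σ₂ : K →+* ℝ}

/-- the primes `q` -/
structure InertQ (m : Ideal (𝓞 K)) (u₀ : (𝓞 K)ˣ) (q : PrI K) : Prop where
  ndvd : ¬ q.asIdeal ∣ m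
  odd : (2 : 𝓞 K) ∉ q.asIdeal
  four : 4 ∣ pn q - 1
  ns : ¬ IsSquare (Ideal.Quotient.mk q.asIdeal (u₀ : 𝓞 K))

lemma unit_notMem (q : PrI K) (w : (𝓞 K)ˣ) : (w : 𝓞 K) ∉ q.asIdeal := fun hh =>
  q.isPrime.ne_top (Ideal.eq_top_of_isUnit_mem _ hh w.isUnit)

lemma isSquare_of_odd {G : Type*} [CommGroup G] {a : G} {k : ℤ} (hk : Odd k)
    (h : IsSquare (a ^ k)) : IsSquare a := by
  obtain ⟨l, rfl⟩ := hk
  obtain ⟨b, hb⟩ := h
  refine ⟨b * a ^ (-l), ?_⟩
  have h1 : a = a ^ (2 * l + 1) * (a ^ (-l) * a ^ (-l)) := by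
    rw [← zpow_add, ← zpow_add]
    have : 2 * l + 1 + (-l + -l) = 1 := by ring
    rw [this, zpow_one]
  conv_lhs => rw [h1, hb]
  rw [mul_mul_mul_comm]

lemma neg_one_isSquare {q : PrI K} (h4 : 4 ∣ pn q - 1) :
    ∃ y : (𝓞 K ⧸ q.asIdeal)ˣ, (y : 𝓞 K ⧸ q.asIdeal) * y = -1 := by
  have := q.isMaximal
  obtain ⟨s, hs⟩ := h4
  have h4 : (-1 : 𝓞 K ⧸ q.asIdeal) ≠ 0 := neg_ne_zero.2 one_ne_zero
  obtain ⟨y, hy⟩ := (exists_pow_iff (q := q) (n := 2) (s := 2 * s) two_pos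
    (by rw [hs]; ring) h4).2 (by rw [pow_mul, neg_one_sq, one_pow])
  have hyu : IsUnit y := by
    apply IsUnit.of_mul_eq_one (-y)
    rw [mul_neg, ← pow_two, hy, neg_neg]
  obtain ⟨z, rfl⟩ := hyu
  exact ⟨z, by rw [← pow_two, hy]⟩

lemma mk_unit_eq_one {q : PrI K} {w : (𝓞 K)ˣ} (h : (w : 𝓞 K) - 1 ∈ q.asIdeal) :
    Units.map (Ideal.Quotient.mk q.asIdeal : 𝓞 K →* 𝓞 K ⧸ q.asIdeal) w = 1 := by
  apply Units.ext
  have h4 := Ideal.Quotient.eq.2 h
  rw [map_one] at h4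
  exact h4

lemma even_even {G R : Type*} [CommGroup G] [CommRing R] [IsDomain R] {f : G →* Rˣ}
    (hm1 : ∃ y : Rˣ, (y : R) * y = -1) {η : G} (ns : ¬ IsSquare (f η)) {k : ℤ}
    (hk : f (η ^ k) = 1) : ∃ t : ℤ, k = t * 4 := by
  have hk1 : f η ^ k = 1 := by rw [← map_zpow, hk]
  have hke : Even k := by
    by_contra hodd
    rw [Int.not_even_iff_odd] at hodd
    exact ns (isSquare_of_odd hodd (by rw [hk1]; exact IsSquare.one))
  obtain ⟨i, hi⟩ := hke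
  have hi1 : (f η ^ i) * (f η ^ i) = 1 := by rw [← zpow_add, ← hi, hk1]
  have hie : Even i := by
    by_contra hodd
    rw [Int.not_even_iff_odd] at hodd
    apply ns
    apply isSquare_of_odd hodd
    have h5 : ((f η ^ i : Rˣ) : R) ^ 2 = 1 := by
      rw [pow_two, ← Units.val_mul, hi1]; rfl
    rcases sq_eq_one_iff_of_side_conds h5 with h6 | h6
    · have : f η ^ i = 1 := Units.ext h6
      rw [this]; exact IsSquare.one
    · obtain ⟨y, hy⟩ := hm1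
      exact ⟨y, Units.ext (by rw [h6, Units.val_mul, hy])⟩
  obtain ⟨t, ht⟩ := hie
  exact ⟨t, by rw [hi, ht]; ring⟩

theorem InertQ.pow4 (h2 : Module.finrank ℚ K = 2) {m : Ideal (𝓞 K)} (hm : m ≠ ⊥)
    {u₀ : (𝓞 K)ˣ} (hu₀ : EU σ₂ m u₀) {q : PrI K} (h : InertQ m u₀ q) {w : (𝓞 K)ˣ}
    (hw : EU σ₂ (m * q.asIdeal) w) : ∃ w' : (𝓞 K)ˣ, EU σ₂ m w' ∧ w = w' ^ 4 := by
  obtain ⟨η, hη, -, hgen⟩ := exists_gen σ₂ h2 hm
  have hwm : EU σ₂ m w := ⟨Ideal.mul_le_left hw.1, hw.2⟩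
  obtain ⟨k, hk⟩ := hgen w hwm
  obtain ⟨j, hj⟩ := hgen u₀ hu₀
  have := q.isMaximal
  have nsη : ¬ IsSquare
      (Units.map (Ideal.Quotient.mk q.asIdeal : 𝓞 K →* 𝓞 K ⧸ q.asIdeal) η) := by
    intro hs
    have h1 := hs.zpow j
    rw [← map_zpow, ← hj] at h1
    obtain ⟨y, hy⟩ := h1
    exact h.ns ⟨(y : 𝓞 K ⧸ q.asIdeal), congrArg Units.val hy⟩
  have hk1 : Units.map (Ideal.Quotient.mk q.asIdeal : 𝓞 K →* 𝓞 K ⧸ q.asIdeal) (η ^ k) = 1 := by
    rw [← hk]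
    exact mk_unit_eq_one (Ideal.mul_le_right hw.1)
  obtain ⟨t, ht⟩ := even_even (neg_one_isSquare h.four) nsη hk1
  refine ⟨η ^ t, hη.zpow t, ?_⟩
  rw [hk, ht, zpow_mul]
  exact_mod_cast rfl

theorem InertQ.odd_fib {m : Ideal (𝓞 K)} (hm : m ≠ ⊥) {u₀ : (𝓞 K)ˣ} (hu₀ : EU σ₂ m u₀)
    {q : PrI K} (hq : InertQ m u₀ q) {H H' : IntermediateField K ℝ}
    {Art : RayClassGroup σ₂ m ≃* (H ≃ₐ[K] H)}
    {Art' : RayClassGroup σ₂ (m * q.asIdeal) ≃* (H' ≃ₐ[K] H')} (h : IsRayClassField σ₂ m H Art)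
    (h' : IsRayClassField σ₂ (m * q.asIdeal) H' Art') (hle : H ≤ H') [Normal K H]
    [FiniteDimensional K H'] : Odd (fib hle (1 : H ≃ₐ[K] H)).card := by
  obtain ⟨γ₀, g, h1, hg, h3⟩ := exists_cyc hm hq.ndvd h h' hle
  have hu0 : Ideal.Quotient.mk q.asIdeal (u₀ : 𝓞 K) ≠ 0 := by
    rw [Ne, Ideal.Quotient.eq_zero_iff_mem]
    exact unit_notMem q u₀
  obtain ⟨a, ha⟩ := hg _ hu0
  have ha2 : Odd a := by
    rw [← Nat.not_even_iff_odd]
    rintro ⟨b, hb⟩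
    apply hq.ns
    exact ⟨g ^ b, by rw [ha, hb, pow_add]⟩
  have h4 : γ₀ ^ a = 1 := (h3 a).2 ⟨u₀, hu₀, ha.symm⟩
  have h5 : (fib hle (1 : H ≃ₐ[K] H)).card = orderOf γ₀ := by
    rw [← Nat.card_zpowers, ← Nat.card_eq_finsetCard]
    refine Nat.card_congr (Equiv.subtypeEquivRight fun γ => ?_)
    rw [mem_fib]
    exact h1 γ
  rw [h5]
  exact Odd.of_dvd_nat ha2 (orderOf_dvd_of_pow_eq_one h4)

/-- real elements of `K(i)` -/
lemma exists_of_mem_MN_one {x : ℝ} (hx : (x : ℂ) ∈ MN (1 : K) 1) : ∃ a : K, algebraMap K ℝ a = x := by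
  obtain ⟨a, b, hab⟩ := real_MN_one hx
  refine ⟨a + b, ?_⟩
  rw [hab, map_one, abs_one, Real.sqrt_one, mul_one, map_add]

theorem gen_inert {m : Ideal (𝓞 K)} (hm : m ≠ ⊥) {u₀ : (𝓞 K)ˣ}
    (hpos : 0 < algebraMap K ℝ ((u₀ : 𝓞 K) : K)) (hns : ¬ IsSquare u₀)
    {L : IntermediateField K ℝ} [FiniteDimensional K L] [IsAbelianGalois K L]
    {B : Set (PrI K)} (hB : B.Finite) :
    Subgroup.closure {σ : L ≃ₐ[K] L | ∃ P : PrI L, InertQ m u₀ (und K P) ∧ und K P ∉ B ∧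
      Algebra.IsUnramifiedAt (𝓞 K) P.asIdeal ∧ IsFrob K P σ} = ⊤ := by
  by_contra htop
  set T := Subgroup.closure {σ : L ≃ₐ[K] L | ∃ P : PrI L, InertQ m u₀ (und K P) ∧ und K P ∉ B ∧
      Algebra.IsUnramifiedAt (𝓞 K) P.asIdeal ∧ IsFrob K P σ} with hT
  have hNL : NumberField L := numberField_of_fd L
  obtain ⟨x, hxF, hxK⟩ : ∃ x ∈ IntermediateField.lift (IntermediateField.fixedField T),
      ∀ a : K, algebraMap K ℝ a ≠ x := by
    by_contra hcon
    push Not at hcon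
    apply htop
    rw [eq_top_iff]
    intro γ _
    refine mem_of_fix T (γ := γ) fun x hx => ?_
    obtain ⟨a, ha⟩ := hcon x hx
    have hxH : x ∈ L := IntermediateField.lift_le _ hx
    have h3 : (⟨x, hxH⟩ : L) = algebraMap K L a := Subtype.ext ha.symm
    rw [act_of_mem γ hxH, h3, AlgEquiv.commutes]
    exact ha
  have hx : x ∈ L := IntermediateField.lift_le _ hxF
  have hfixT : ∀ σ ∈ T, act σ x = x := (mem_lift_fixedField T hx).1 hxF
  -- the fields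
  set M : IntermediateField K ℂ := MN (1 : K) 1 with hM
  set e : K := ((u₀ : 𝓞 K) : K) with he
  set M₁ : IntermediateField K ℂ := M ⊔ IntermediateField.adjoin K
    {z : ℂ | z ^ (2 ^ 1) = algebraMap K ℂ e} with hM₁
  set M₂ : IntermediateField K ℂ := M ⊔ K⟮(x : ℂ)⟯ with hM₂
  set E : IntermediateField K ℂ := M₁ ⊔ L.map (jR K) with hE
  have hFH : K⟮x⟯ ≤ L := adjoin_simple_le_iff.2 hx
  have : IsAbelianGalois K K⟮x⟯ := isAbelianGalois_of_le hFH
  have : FiniteDimensional K K⟮x⟯ := fd_of_le hFH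
  have gx : IsGalois K K⟮(x : ℂ)⟯ := adjoin_coe_galois
  have fx : FiniteDimensional K K⟮(x : ℂ)⟯ := by
    rw [adjoin_coe]
    exact Module.Finite.equiv (IntermediateField.equivMap K⟮x⟯ (jR K)).toLinearEquiv
  have gM : IsGalois K M := gal_MN (1 : K) 1
  have fM : FiniteDimensional K M := fd_MN (1 : K) 1
  have gM₁ : IsGalois K M₁ := gal_MNβ (1 : K) e 1
  have fM₁ : FiniteDimensional K M₁ := fd_MNβ (1 : K) e 1
  have gM₂ : IsGalois K M₂ := by
    have : Normal K (M ⊔ K⟮(x : ℂ)⟯ : IntermediateField K ℂ) := inferInstance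
    exact ⟨⟩
  have gL : IsGalois K (L.map (jR K)) := IsGalois.of_algEquiv (IntermediateField.equivMap L (jR K))
  have fL : FiniteDimensional K (L.map (jR K)) :=
    Module.Finite.equiv (IntermediateField.equivMap L (jR K)).toLinearEquiv
  have gE : IsGalois K E := by
    have : Normal K (M₁ ⊔ L.map (jR K) : IntermediateField K ℂ) := inferInstance
    exact ⟨⟩
  have fE : FiniteDimensional K E := by rw [hE]; infer_instance
  have nE : NumberField E := NumberField.of_module_finite K _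
  have hxK' : K⟮(x : ℂ)⟯ ≤ L.map (jR K) := by
    rw [adjoin_coe]
    exact IntermediateField.map_mono (jR K) hFH
  have hME : M ≤ E := le_sup_left.trans le_sup_left
  have hM₁E : M₁ ≤ E := le_sup_left
  have hM₂E : M₂ ≤ E := sup_le hME (hxK'.trans le_sup_right)
  have h1 : M < M₁ := by
    refine lt_of_le_of_ne le_sup_left fun hh => ?_
    have hs : ((Real.sqrt (algebraMap K ℝ e) : ℝ) : ℂ) ∈ M := by
      rw [hh]
      refine (le_sup_right : IntermediateField.adjoin K {z : ℂ | z ^ (2 ^ 1) = algebraMap K ℂ e} ≤ _)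
        (subset_adjoin K _ ?_)
      change ((Real.sqrt (algebraMap K ℝ e) : ℝ) : ℂ) ^ (2 ^ 1) = _
      rw [pow_one, ← Complex.ofReal_pow, Real.sq_sqrt hpos.le,
        IsScalarTower.algebraMap_apply K ℝ ℂ]
      rfl
    obtain ⟨a, ha⟩ := exists_of_mem_MN_one hs
    apply hns
    have h4 : a ^ 2 = e := by
      apply (algebraMap K ℝ).injective
      rw [map_pow, ha, Real.sq_sqrt hpos.le]
    have h5 : IsIntegral ℤ a := by
      apply IsIntegral.of_pow (n := 2) two_pos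
      rw [h4, he]
      exact RingOfIntegers.isIntegral_coe _
    set b : 𝓞 K := ⟨a, h5⟩ with hb
    have h6 : b * b = (u₀ : 𝓞 K) := by
      apply RingOfIntegers.coe_injective
      rw [map_mul, ← pow_two]
      exact h4
    obtain ⟨v, hv⟩ : IsUnit b := isUnit_of_mul_isUnit_left (by rw [h6]; exact u₀.isUnit)
    refine ⟨v, ?_⟩
    apply Units.ext
    rw [Units.val_mul, hv, h6]
  have h2' : M < M₂ := by
    refine lt_of_le_of_ne le_sup_left fun hh => ?_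
    have hs : (x : ℂ) ∈ M := by
      rw [hh]
      exact (le_sup_right : K⟮(x : ℂ)⟯ ≤ _) (mem_adjoin_simple_self K _)
    obtain ⟨a, ha⟩ := exists_of_mem_MN_one hs
    exact hxK a ha
  have g0 : IsGalois K (IntermediateField.restrict hME) :=
    IsGalois.of_algEquiv (restrictAlgEquiv hME)
  have g1 : IsGalois K (IntermediateField.restrict hM₁E) :=
    IsGalois.of_algEquiv (restrictAlgEquiv hM₁E)
  have g2 : IsGalois K (IntermediateField.restrict hM₂E) :=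
    IsGalois.of_algEquiv (restrictAlgEquiv hM₂E)
  set R : Set (PrI L) := {P : PrI L | ¬ Algebra.IsUnramifiedAt (𝓞 K) P.asIdeal} with hR
  obtain ⟨P, hPB, hPun, σ, hσ, e0, ⟨x₁, hx₁, e1⟩, ⟨x₂, hx₂, e2⟩⟩ :=
    exists_two _ _ _ (restrict_lt hME hM₁E h1) (restrict_lt hME hM₂E h2')
      ({q | q.asIdeal ∣ m} ∪ {q | (2 : 𝓞 K) ∈ q.asIdeal} ∪ B ∪ und K '' R)
      ((((finite_dvd hm).union (finite_two K)).union hB).union ((finite_ramified K).image _))
  rw [Set.mem_union, Set.mem_union, Set.mem_union, not_or, not_or, not_or] at hPB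
  obtain ⟨⟨⟨hq, hq2⟩, hqB⟩, hqR⟩ := hPB
  have hq : ¬ (und K P).asIdeal ∣ m := hq
  have hq2 : (2 : 𝓞 K) ∉ (und K P).asIdeal := hq2
  have hfM : M ≤ fixL σ := fun z hz =>
    (mem_fixL σ (hME hz)).2 (e0 ⟨z, hME hz⟩ ((mem_restrict hME _).2 hz))
  -- 4 divides N q - 1
  have hz2 : zt 2 ∈ M := subset_adjoin K _ (Or.inr (zt_prim 2).pow_eq_one)
  have hfour : 4 ∣ pn (und K P) - 1 := by
    have hζL : IsPrimitiveRoot (⟨zt 2, hME hz2⟩ : E) (2 ^ 2) := by
      rw [← IsPrimitiveRoot.coe_submonoidClass_iff]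
      exact zt_prim 2
    exact (fix_root_iff hσ hq2 hζL).1 (e0 _ ((mem_restrict hME _).2 hz2))
  -- `u₀` is not a square
  have hnsq : ¬ IsSquare (Ideal.Quotient.mk (und K P).asIdeal (u₀ : 𝓞 K)) := by
    rintro ⟨y, hy⟩
    apply e1
    have hTf : M₁ ≤ fixL σ := by
      refine sup_le hfM ?_
      rw [adjoin_le_iff]
      intro z hz
      have hzL : z ∈ E := hM₁E ((le_sup_right :
        IntermediateField.adjoin K {z : ℂ | z ^ (2 ^ 1) = algebraMap K ℂ e} ≤ M₁)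
          (subset_adjoin K _ hz))
      refine (mem_fixL σ hzL).2 ((fix_iff_pow hσ hq2 (N := 1) ((by norm_num : (2:ℕ) ^ 1 ∣ 4).trans
        hfour) (unit_notMem _ u₀) (x := ⟨z, hzL⟩) ?_).2 ⟨y, ?_⟩)
      · apply Subtype.ext
        exact hz
      · rw [pow_one, pow_two, ← hy]
    exact (mem_fixL σ x₁.2).1 (hTf ((mem_restrict hM₁E _).1 hx₁))
  -- transfer to `L`
  have hmem : ∀ y : L, ((jR K).comp L.val) y ∈ E.toSubalgebra := by
    intro y
    exact (le_sup_right : L.map (jR K) ≤ E) ⟨(y : ℝ), y.2, rfl⟩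
  let j : L →ₐ[K] E := ((jR K).comp L.val).codRestrict E.toSubalgebra hmem
  let _ : Algebra L E := j.toRingHom.toAlgebra
  have : IsScalarTower K L E := IsScalarTower.of_algebraMap_eq (fun x => (j.commutes x).symm)
  have hfr : IsFrob K (und L P) (σ.restrictNormal L) :=
    isFrob_und (fun x => σ.restrictNormal_commutes L x) hσ
  have hund : und K (und L P) = und K P := und_und P
  have hQ : InertQ m u₀ (und K (und L P)) := by
    rw [hund]
    exact ⟨hq, hq2, hfour, hnsq⟩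
  have hun : Algebra.IsUnramifiedAt (𝓞 K) (und L P).asIdeal := by
    by_contra hn
    exact hqR ⟨und L P, hn, hund⟩
  have hmemT : σ.restrictNormal L ∈ T :=
    Subgroup.subset_closure ⟨und L P, hQ, by rw [hund]; exact hqB, hun, hfr⟩
  have hxE : (x : ℂ) ∈ E := hM₂E ((le_sup_right : K⟮(x : ℂ)⟯ ≤ M₂) (mem_adjoin_simple_self K _))
  have h5 : σ ⟨(x : ℂ), hxE⟩ = ⟨(x : ℂ), hxE⟩ := by
    have h6 := σ.restrictNormal_commutes L ⟨x, hx⟩
    have h7 := hfixT _ hmemT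
    rw [act_of_mem _ hx] at h7
    have h8 : σ.restrictNormal L ⟨x, hx⟩ = ⟨x, hx⟩ := Subtype.ext h7
    rw [h8] at h6
    exact h6.symm
  apply e2
  have hf2 : M₂ ≤ fixL σ :=
    sup_le hfM (adjoin_simple_le_iff.2 ((mem_fixL σ hxE).2 h5))
  exact (mem_fixL σ x₂.2).1 (hf2 ((mem_restrict hM₂E _).1 hx₂))

end Pool.Agent.STe
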